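import Mathlib

/-! Functional calculus of an endomorphism of a finite-dimensional complex vector space, given by
functions which are constant on the generalised eigenspaces. -/

open Module Module.End

noncomputable section

namespace Pool.Agent.K4H32.W

variable {V : Type*} [AddCommGroup V] [Module ℂ V] [FiniteDimensional ℂ V]

lemma internal (T : End ℂ V) : DirectSum.IsInternal (fun l : ℂ => T.maxGenEigenspace l) :=
  DirectSum.isInternal_submodule_of_iSupIndep_of_iSup_eq_top T.independent_maxGenEigenspace
    T.iSup_maxGenEigenspace_eq_top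

/-- the endomorphism which is multiplication by `f l` on the generalised eigenspace for `l` -/
def cal (T : End ℂ V) (f : ℂ → ℂ) : End ℂ V :=
  (DirectSum.toModule ℂ ℂ V (fun l => f l • (T.maxGenEigenspace l).subtype)) ∘ₗ
    (LinearEquiv.ofBijective (DirectSum.coeLinearMap fun l : ℂ => T.maxGenEigenspace l)
      (internal T)).symm.toLinearMap

lemma cal_apply (T : End ℂ V) (f : ℂ → ℂ) {l : ℂ} {v : V} (hv : v ∈ T.maxGenEigenspace l) :
    cal T f v = f l • v := by
  classical
  have h : (LinearEquiv.ofBijective (DirectSum.coeLinearMap fun l : ℂ => T.maxGenEigenspace l)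
      (internal T)).symm v =
      DirectSum.lof ℂ ℂ (fun l : ℂ => T.maxGenEigenspace l) l ⟨v, hv⟩ := by
    rw [LinearEquiv.symm_apply_eq]
    simp
  unfold cal
  rw [LinearMap.comp_apply, LinearEquiv.coe_coe, h, DirectSum.toModule_lof]
  simp

/-- induction over the generalised eigenspaces, for additive predicates -/
lemma gen_induction (T : End ℂ V) {p : V → Prop} (h0 : p 0) (hadd : ∀ v w, p v → p w → p (v + w))
    (h : ∀ l, ∀ v ∈ T.maxGenEigenspace l, p v) (v : V) : p v := by
  have hv : v ∈ ⨆ l, T.maxGenEigenspace l := by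
    rw [T.iSup_maxGenEigenspace_eq_top]; trivial
  exact Submodule.iSup_induction (motive := p) _ hv h h0 hadd

lemma ext_gen (T : End ℂ V) {W : Type*} [AddCommGroup W] [Module ℂ W] {A B : V →ₗ[ℂ] W}
    (h : ∀ l, ∀ v ∈ T.maxGenEigenspace l, A v = B v) : A = B := by
  ext v
  refine gen_induction T (p := fun v => A v = B v) (by simp) ?_ h v
  intro v w hv hw
  rw [map_add, map_add, hv, hw]

lemma cal_commute {T S : End ℂ V} (h : Commute S T) (f : ℂ → ℂ) : Commute S (cal T f) := by
  refine ext_gen T fun l v hv => ?_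
  have h1 : S v ∈ T.maxGenEigenspace l := mapsTo_maxGenEigenspace_of_comm h.symm l hv
  rw [Module.End.mul_apply, Module.End.mul_apply, cal_apply T f hv, cal_apply T f h1, map_smul]

lemma cal_mul (T : End ℂ V) (f g : ℂ → ℂ) : cal T f * cal T g = cal T (fun l => f l * g l) := by
  refine ext_gen T fun l v hv => ?_
  rw [Module.End.mul_apply, cal_apply T g hv, map_smul, cal_apply T f hv, cal_apply T _ hv,
    smul_smul, mul_comm]

lemma cal_idem (T : End ℂ V) {f : ℂ → ℂ} (hf : ∀ l, f l * f l = f l) :
    IsIdempotentElem (cal T f) := by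
  unfold IsIdempotentElem
  rw [cal_mul]
  congr 1
  ext l
  exact hf l

lemma commute_self_cal (T : End ℂ V) (f : ℂ → ℂ) : Commute T (cal T f) :=
  cal_commute (Commute.refl T) f

lemma finite_gen (T : End ℂ V) : {l | T.maxGenEigenspace l ≠ ⊥}.Finite :=
  WellFoundedGT.finite_ne_bot_of_iSupIndep T.independent_maxGenEigenspace

/-- something which commutes with `g(T)` commutes with `h(g(T))` -/
lemma commute_cal_comp {T S : End ℂ V} (g h : ℂ → ℂ) (hS : Commute S (cal T g)) :
    Commute S (cal T (fun l => h (g l))) := by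
  have hfin : {l | T.maxGenEigenspace l ≠ ⊥}.Finite := finite_gen T
  classical
  let s : Finset ℂ := hfin.toFinset.image g
  obtain ⟨p, hp⟩ : ∃ p : Polynomial ℂ, ∀ z ∈ s, p.eval z = h z := by
    refine ⟨Lagrange.interpolate s id h, fun z hz => ?_⟩
    exact Lagrange.eval_interpolate_at_node h (fun a _ b _ hab => hab) hz
  have key : cal T (fun l => h (g l)) = Polynomial.aeval (cal T g) p := by
    refine ext_gen T fun l v hv => ?_
    rw [cal_apply T _ hv]
    by_cases hl : T.maxGenEigenspace l = ⊥
    · rw [hl] at hv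
      rw [(Submodule.mem_bot ℂ).1 hv]; simp
    · have h1 : g l ∈ s := Finset.mem_image.2 ⟨l, by simpa using hl, rfl⟩
      rw [Module.End.aeval_apply_of_mem_apply_eq_smul (cal_apply T g hv), hp _ h1]
  rw [key]
  exact Algebra.commute_of_mem_adjoin_singleton_of_commute (R := ℂ)
    (Polynomial.aeval_mem_adjoin_singleton ℂ (cal T g) (p := p)) hS

/-- the nilpotent part -/
lemma nil_part (T : End ℂ V) : IsNilpotent (T - cal T id) := by
  refine ⟨finrank ℂ V, ?_⟩
  refine ext_gen T fun l v hv => ?_
  have h1 : ∀ (k : ℕ), ∀ w ∈ T.maxGenEigenspace l,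
      ((T - cal T id) ^ k) w = ((T - algebraMap ℂ (End ℂ V) l) ^ k) w := by
    intro k
    induction k with
    | zero => intro w hw; rfl
    | succ k ih =>
      intro w hw
      have e : (T - cal T id) w = (T - algebraMap ℂ (End ℂ V) l) w := by
        rw [LinearMap.sub_apply, LinearMap.sub_apply, cal_apply T id hw]
        rfl
      have hw' : (T - algebraMap ℂ (End ℂ V) l) w ∈ T.maxGenEigenspace l := by
        rw [LinearMap.sub_apply]
        exact Submodule.sub_mem _ (mapsTo_maxGenEigenspace_of_comm (Commute.refl T) l hw)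
          (Submodule.smul_mem _ _ hw)
      rw [pow_succ, pow_succ, Module.End.mul_apply, Module.End.mul_apply, e, ih _ hw']
  rw [h1 _ v hv]
  rw [maxGenEigenspace_eq_genEigenspace_finrank, Module.End.mem_genEigenspace_nat] at hv
  rw [Algebra.algebraMap_eq_smul_one]
  simpa using hv

/-- trace of `Q f(T)` for an idempotent `Q` commuting with `T` -/
lemma trace_idem_cal {T Q : End ℂ V} (hQ : IsIdempotentElem Q) (hc : Commute Q T) :
    ∃ r : ℂ → ℕ, ∀ f : ℂ → ℂ, LinearMap.trace ℂ V (Q * cal T f) =
      ∑ l ∈ (finite_gen T).toFinset, (r l : ℂ) * f l := by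
  classical
  have hmaps : ∀ l, Set.MapsTo Q (T.maxGenEigenspace l) (T.maxGenEigenspace l) := fun l =>
    mapsTo_maxGenEigenspace_of_comm hc.symm l
  refine ⟨fun l => finrank ℂ (LinearMap.range (Q.restrict (hmaps l))), fun f => ?_⟩
  have hmaps' : ∀ l, Set.MapsTo (Q * cal T f) (T.maxGenEigenspace l) (T.maxGenEigenspace l) := by
    intro l v hv
    rw [Module.End.mul_apply, cal_apply T f hv, map_smul]
    exact Submodule.smul_mem _ _ (hmaps l hv)
  rw [LinearMap.trace_eq_sum_trace_restrict' (internal T) (finite_gen T) hmaps']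
  refine Finset.sum_congr rfl fun l _ => ?_
  have e : (Q * cal T f).restrict (hmaps' l) = f l • Q.restrict (hmaps l) := by
    ext v
    rw [LinearMap.coe_restrict_apply, Module.End.mul_apply, cal_apply T f v.2]
    simp
  rw [e, map_smul, smul_eq_mul, mul_comm]
  congr 1
  have hid : IsIdempotentElem (Q.restrict (hmaps l)) := by
    unfold IsIdempotentElem
    ext v
    rw [Module.End.mul_apply, LinearMap.coe_restrict_apply, LinearMap.coe_restrict_apply,
      ← Module.End.mul_apply, hQ]
  exact LinearMap.IsProj.trace (LinearMap.IsIdempotentElem.isProj_range _ hid)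

lemma trace_cal (T : End ℂ V) (f : ℂ → ℂ) : LinearMap.trace ℂ V (cal T f) =
      ∑ l ∈ (finite_gen T).toFinset, (finrank ℂ (T.maxGenEigenspace l) : ℂ) * f l := by
  classical
  have hmaps' : ∀ l, Set.MapsTo (cal T f) (T.maxGenEigenspace l) (T.maxGenEigenspace l) := by
    intro l v hv
    rw [cal_apply T f hv]
    exact Submodule.smul_mem _ _ hv
  rw [LinearMap.trace_eq_sum_trace_restrict' (internal T) (finite_gen T) hmaps']
  refine Finset.sum_congr rfl fun l _ => ?_
  have e : (cal T f).restrict (hmaps' l) = f l • LinearMap.id := by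
    ext v
    rw [LinearMap.coe_restrict_apply, cal_apply T f v.2]
    simp
  rw [e, map_smul, smul_eq_mul, mul_comm, LinearMap.trace_id]

end Pool.Agent.K4H32.W
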