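import Mathlib
import Pool.Agent.K4H32.W.Cal

/-! Rationality of the gradient of the sum of the positive imaginary parts of the eigenvalues of the
adjoint representation of a semisimple Lie algebra. -/

open Module Module.End LieAlgebra

noncomputable section

set_option linter.unusedSectionVars false

namespace Pool.Agent.K4H32.W

variable {L : Type*} [LieRing L] [LieAlgebra ℂ L] [FiniteDimensional ℂ L]

lemma cal_leibniz (x : L) {f : ℂ → ℂ} (hf : ∀ a b, f (a + b) = f a + f b) (u v : L) :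
    cal (ad ℂ L x) f ⁅u, v⁆ = ⁅u, cal (ad ℂ L x) f v⁆ - ⁅v, cal (ad ℂ L x) f u⁆ := by
  refine gen_induction (ad ℂ L x) (p := fun u => cal (ad ℂ L x) f ⁅u, v⁆ =
    ⁅u, cal (ad ℂ L x) f v⁆ - ⁅v, cal (ad ℂ L x) f u⁆) (by simp) ?_ ?_ u
  · intro u w hu hw
    rw [add_lie, map_add, hu, hw, map_add, add_lie, lie_add]
    abel
  · intro l u hu
    refine gen_induction (ad ℂ L x) (p := fun v => cal (ad ℂ L x) f ⁅u, v⁆ =
      ⁅u, cal (ad ℂ L x) f v⁆ - ⁅v, cal (ad ℂ L x) f u⁆) (by simp) ?_ ?_ v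
    · intro v w hv hw
      rw [lie_add, map_add, hv, hw, map_add, lie_add, add_lie]
      abel
    · intro m v hv
      have h1 : ⁅u, v⁆ ∈ (ad ℂ L x).maxGenEigenspace (l + m) :=
        LieModule.lie_mem_maxGenEigenspace_toEnd hu hv
      rw [cal_apply _ f h1, cal_apply _ f hu, cal_apply _ f hv, hf, add_smul, lie_smul, lie_smul,
        ← lie_skew v u, smul_neg]
      abel

lemma exists_ad_eq_cal [LieAlgebra.IsKilling ℂ L] (x : L) {f : ℂ → ℂ}
    (hf : ∀ a b, f (a + b) = f a + f b) : ∃ t : L, ad ℂ L t = cal (ad ℂ L x) f := by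
  let D : LieDerivation ℂ L L :=
    { toLinearMap := cal (ad ℂ L x) f
      leibniz' := fun u v => cal_leibniz x hf u v }
  obtain ⟨t, ht⟩ := LieDerivation.IsKilling.exists_eq_ad D
  refine ⟨t, ?_⟩
  rw [← LieDerivation.coe_ad_apply_eq_ad_apply, ht]

variable [LieAlgebra.IsKilling ℂ L]

lemma eq_zero_of_killing {x : L} (h : ∀ c, killingForm ℂ L x c = 0) : x = 0 := by
  have h1 := LieAlgebra.IsKilling.ker_killingForm_eq_bot ℂ L
  have h2 : x ∈ LinearMap.ker (killingForm ℂ L) := by
    rw [LinearMap.mem_ker]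
    ext c
    exact h c
  rw [h1] at h2
  simpa using h2

lemma ad_inj {x : L} (h : ad ℂ L x = 0) : x = 0 := by
  apply eq_zero_of_killing
  intro c
  rw [killingForm_apply_apply, h]
  simp

lemma ad_lie_eq (x y : L) : ad ℂ L ⁅x, y⁆ = ad ℂ L x * ad ℂ L y - ad ℂ L y * ad ℂ L x := by
  ext z
  rw [LinearMap.sub_apply, Module.End.mul_apply, Module.End.mul_apply, ad_apply, ad_apply,
    ad_apply, ad_apply, ad_apply, leibniz_lie x y z]
  abel

lemma commute_ad_of_lie {x y : L} (h : ⁅x, y⁆ = 0) : Commute (ad ℂ L x) (ad ℂ L y) := by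
  have h2 : ad ℂ L x * ad ℂ L y - ad ℂ L y * ad ℂ L x = 0 := by
    rw [← ad_lie_eq, h, map_zero]
  exact sub_eq_zero.1 h2

lemma trace_nil_mul {V : Type*} [AddCommGroup V] [Module ℂ V] [FiniteDimensional ℂ V]
    {N B : End ℂ V} (hN : IsNilpotent N) (h : Commute N B) : LinearMap.trace ℂ V (N * B) = 0 :=
  (LinearMap.isNilpotent_trace_of_isNilpotent (h.isNilpotent_mul_right hN)).eq_zero

/-- indicator function of the upper half plane -/
def indP (l : ℂ) : ℂ := if 0 < l.im then 1 else 0

/-- indicator function of the lower half plane -/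
def indM (l : ℂ) : ℂ := if l.im < 0 then 1 else 0

lemma indP_idem (l : ℂ) : indP l * indP l = indP l := by
  unfold indP; split_ifs <;> simp

lemma indM_idem (l : ℂ) : indM l * indM l = indM l := by
  unfold indM; split_ifs <;> simp

/-- `k` is the gradient, with respect to the Killing form, of the sum of the positive imaginary
parts of the eigenvalues at `a`. -/
def IsGrad (a k : L) : Prop :=
  ∀ c : L, killingForm ℂ L k c = (1 / (2 * Complex.I)) *
    (LinearMap.trace ℂ L (cal (ad ℂ L a) indP * ad ℂ L c) -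
      LinearMap.trace ℂ L (cal (ad ℂ L a) indM * ad ℂ L c))

lemma trace_lie_zero {Q B C : End ℂ L} (h : Commute Q B) :
    LinearMap.trace ℂ L (Q * (B * C - C * B)) = 0 := by
  have h1 : LinearMap.trace ℂ L (Q * (C * B)) = LinearMap.trace ℂ L (Q * (B * C)) := by
    rw [← mul_assoc, LinearMap.trace_mul_comm, ← mul_assoc, ← mul_assoc, h.eq]
  rw [mul_sub, map_sub, h1, sub_self]

lemma IsGrad.lie_zero {a k b : L} (h : IsGrad a k)
    (h1 : Commute (cal (ad ℂ L a) indP) (ad ℂ L b))
    (h2 : Commute (cal (ad ℂ L a) indM) (ad ℂ L b)) : ⁅k, b⁆ = 0 := by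
  apply eq_zero_of_killing
  intro c
  have e1 : killingForm ℂ L ⁅k, b⁆ c = killingForm ℂ L k ⁅b, c⁆ :=
    LieModule.traceForm_apply_lie_apply ℂ L L k b c
  have e2 : ad ℂ L ⁅b, c⁆ = ad ℂ L b * ad ℂ L c - ad ℂ L c * ad ℂ L b := ad_lie_eq b c
  rw [e1, h, e2, trace_lie_zero h1, trace_lie_zero h2]
  simp

lemma IsGrad.commute {a k : L} (h : IsGrad a k) : Commute (ad ℂ L k) (ad ℂ L a) :=
  commute_ad_of_lie (h.lie_zero (commute_self_cal _ _).symm (commute_self_cal _ _).symm)

/-- the eigenvalues are rational multiples of `i` -/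
lemma IsGrad.rational {a k : L} (h : IsGrad a k) (F : ℂ →ₗ[ℚ] ℚ) (hF : F Complex.I = 0) (l : ℂ)
    (hl : (ad ℂ L k).maxGenEigenspace l ≠ ⊥) : F l = 0 := by
  classical
  set S := ad ℂ L k with hS
  let f : ℂ → ℂ := fun l => ((F l : ℚ) : ℂ)
  have hf : ∀ a b, f (a + b) = f a + f b := by
    intro a b; simp [f]
  obtain ⟨t, ht⟩ := exists_ad_eq_cal k hf
  have hP : Commute (cal (ad ℂ L a) indP) S := (cal_commute h.commute indP).symm
  have hM : Commute (cal (ad ℂ L a) indM) S := (cal_commute h.commute indM).symm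
  obtain ⟨r, hr⟩ := trace_idem_cal (cal_idem (ad ℂ L a) indP_idem) hP
  obtain ⟨r', hr'⟩ := trace_idem_cal (cal_idem (ad ℂ L a) indM_idem) hM
  have h1 := h t
  rw [ht, hr, hr'] at h1
  have h2 : killingForm ℂ L k t = ∑ l ∈ (finite_gen S).toFinset,
      (finrank ℂ (S.maxGenEigenspace l) : ℂ) * (l * f l) := by
    have e1 : killingForm ℂ L k t = LinearMap.trace ℂ L (S * cal S f) := by
      rw [killingForm_apply_apply, ht]; rfl
    have e2 : S * cal S f = (S - cal S id) * cal S f + cal S (fun l => l * f l) := by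
      rw [sub_mul, cal_mul]; simp
    have e3 : Commute (S - cal S id) (cal S f) := by
      apply Commute.sub_left (commute_self_cal S f)
      exact cal_commute (commute_self_cal S id).symm f
    rw [e1, e2, map_add, trace_nil_mul (nil_part S) e3, zero_add, trace_cal]
  rw [h2] at h1
  -- apply `F`
  set Λ := (finite_gen S).toFinset with hΛ
  have h3 : ∑ l ∈ Λ, ((finrank ℂ (S.maxGenEigenspace l) : ℚ) * F l) • l =
      (-(1/2) * (∑ l ∈ Λ, (r l : ℚ) * F l - ∑ l ∈ Λ, (r' l : ℚ) * F l)) • Complex.I := by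
    have e1 : ∑ l ∈ Λ, ((finrank ℂ (S.maxGenEigenspace l) : ℚ) * F l) • l =
        ∑ l ∈ Λ, (finrank ℂ (S.maxGenEigenspace l) : ℂ) * (l * f l) := by
      refine Finset.sum_congr rfl fun l _ => ?_
      rw [Rat.smul_def]
      simp only [f]
      push_cast
      ring
    rw [e1, h1, Rat.smul_def]
    simp only [f]
    push_cast
    have hI : Complex.I ≠ 0 := Complex.I_ne_zero
    field_simp
    rw [Complex.I_sq]
    ring
  have h4 := congrArg F h3
  rw [map_sum, map_smul, hF, smul_zero] at h4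
  simp only [map_smul, smul_eq_mul] at h4
  have h5 : ∀ l ∈ Λ, 0 ≤ (finrank ℂ (S.maxGenEigenspace l) : ℚ) * F l * F l := by
    intro l _
    rw [mul_assoc]
    exact mul_nonneg (Nat.cast_nonneg _) (mul_self_nonneg _)
  have h6 := (Finset.sum_eq_zero_iff_of_nonneg h5).1 h4 l (by simpa [hΛ] using hl)
  have h7 : (finrank ℂ (S.maxGenEigenspace l) : ℚ) ≠ 0 := by
    have : finrank ℂ (S.maxGenEigenspace l) ≠ 0 := by
      intro h0
      exact hl (Submodule.finrank_eq_zero.1 h0)
    exact_mod_cast this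
  rw [mul_assoc] at h6
  rcases mul_eq_zero.1 h6 with h8 | h8
  · exact absurd h8 h7
  · exact mul_self_eq_zero.1 h8

lemma IsGrad.eigenvalue {a k : L} (h : IsGrad a k) (l : ℂ)
    (hl : (ad ℂ L k).maxGenEigenspace l ≠ ⊥) : ∃ q : ℚ, l = (q : ℂ) * Complex.I := by
  by_contra hcon
  have h1 : l ∉ Submodule.span ℚ {Complex.I} := by
    intro h1
    obtain ⟨q, hq⟩ := Submodule.mem_span_singleton.1 h1
    apply hcon
    refine ⟨q, ?_⟩
    rw [← hq, Rat.smul_def]
  obtain ⟨F, hF1, hF2⟩ := Submodule.exists_le_ker_of_notMem h1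
  apply hF1
  apply h.rational F _ l hl
  have := hF2 (Submodule.subset_span rfl)
  simpa using this

/-- the gradient is semisimple -/
lemma IsGrad.semisimple {a k : L} (h : IsGrad a k) :
    ad ℂ L k = cal (ad ℂ L k) id := by
  obtain ⟨s, hs⟩ := exists_ad_eq_cal k (f := id) (fun _ _ => rfl)
  obtain ⟨e, he⟩ := exists_ad_eq_cal a (f := fun l => ((l.im : ℝ) : ℂ)) (fun _ _ => by simp)
  set T := ad ℂ L a with hT
  set S := ad ℂ L k with hS
  have hnil := nil_part S
  set N := S - cal S id with hN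
  have hn : ad ℂ L (k - s) = N := by rw [map_sub, hs]
  -- things commuting with `E` commute with the projections
  have hPE : ∀ B : End ℂ L, Commute B (ad ℂ L e) → Commute (cal T indP) B := by
    intro B hB
    rw [he] at hB
    have := commute_cal_comp (fun l => ((l.im : ℝ) : ℂ)) (fun z => if 0 < z.re then 1 else 0) hB
    exact this.symm
  have hME : ∀ B : End ℂ L, Commute B (ad ℂ L e) → Commute (cal T indM) B := by
    intro B hB
    rw [he] at hB
    have := commute_cal_comp (fun l => ((l.im : ℝ) : ℂ)) (fun z => if z.re < 0 then 1 else 0) hB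
    exact this.symm
  have hke : ⁅k, e⁆ = 0 := h.lie_zero (hPE _ (Commute.refl _)) (hME _ (Commute.refl _))
  have hSE : Commute S (ad ℂ L e) := commute_ad_of_lie hke
  have hNE : Commute N (ad ℂ L e) := by
    apply Commute.sub_left hSE
    exact (cal_commute hSE.symm id).symm
  have hzero : k - s = 0 := by
    apply eq_zero_of_killing
    intro c
    set c0 := cal T (fun l => if l.im = 0 then 1 else 0) c with hc0
    set c' := cal T (fun l => if l.im = 0 then 0 else 1 / ((l.im : ℝ) : ℂ)) c with hc'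
    have hdec : c = c0 + ⁅e, c'⁆ := by
      have e1 : ⁅e, c'⁆ = ad ℂ L e c' := rfl
      rw [e1, he, hc', ← Module.End.mul_apply, cal_mul, hc0, ← LinearMap.add_apply]
      have e2 : cal T (fun l => if l.im = 0 then 1 else 0) +
          cal T (fun l => ((l.im : ℝ) : ℂ) * (if l.im = 0 then 0 else 1 / ((l.im : ℝ) : ℂ))) = 1 := by
        refine ext_gen T fun l v hv => ?_
        rw [LinearMap.add_apply, cal_apply _ _ hv, cal_apply _ _ hv]
        by_cases h0 : l.im = 0
        · simp [h0]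
        · have : ((l.im : ℝ) : ℂ) ≠ 0 := by exact_mod_cast h0
          simp [h0]
      rw [e2]; rfl
    have hec0 : ⁅e, c0⁆ = 0 := by
      have e1 : ⁅e, c0⁆ = ad ℂ L e c0 := rfl
      rw [e1, he, hc0, ← Module.End.mul_apply, cal_mul]
      have e2 : cal T (fun l => ((l.im : ℝ) : ℂ) * (if l.im = 0 then 1 else 0)) = 0 := by
        refine ext_gen T fun l v hv => ?_
        rw [cal_apply _ _ hv]
        by_cases h0 : l.im = 0
        · simp [h0]
        · simp [h0]
      rw [e2]; rfl
    have hc0e : Commute (ad ℂ L c0) (ad ℂ L e) := (commute_ad_of_lie hec0).symm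
    have hkc0 : ⁅k, c0⁆ = 0 := h.lie_zero (hPE _ hc0e) (hME _ hc0e)
    have hSc0 : Commute S (ad ℂ L c0) := commute_ad_of_lie hkc0
    have hNc0 : Commute N (ad ℂ L c0) := by
      apply Commute.sub_left hSc0
      exact (cal_commute hSc0.symm id).symm
    rw [hdec, map_add]
    have e1 : killingForm ℂ L (k - s) c0 = 0 := by
      rw [killingForm_apply_apply, hn]
      exact trace_nil_mul hnil hNc0
    have e2 : killingForm ℂ L (k - s) ⁅e, c'⁆ = 0 := by
      have e3 : killingForm ℂ L ⁅k - s, e⁆ c' = killingForm ℂ L (k - s) ⁅e, c'⁆ :=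
        LieModule.traceForm_apply_lie_apply ℂ L L (k - s) e c'
      rw [← e3]
      have e4 : ⁅k - s, e⁆ = 0 := by
        apply ad_inj
        rw [ad_lie_eq, hn, hNE.eq, sub_self]
      rw [e4]; simp
    rw [e1, e2, add_zero]
  have : N = 0 := by rw [← hn, hzero, map_zero]
  exact sub_eq_zero.1 this

end Pool.Agent.K4H32.W
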