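import Mathlib
import Pool.Agent.K4H32.W.Alg

/-! The sum of the positive imaginary parts of the eigenvalues, as a maximum over invariant
subspaces. -/

open Module Module.End

noncomputable section

set_option linter.unusedSectionVars false

namespace Pool.Agent.K4H32.W

variable {V : Type*} [AddCommGroup V] [Module ℂ V] [FiniteDimensional ℂ V]

lemma exists_eigenvector {A : End ℂ V} {l : ℂ} (hl : A.maxGenEigenspace l ≠ ⊥) :
    ∃ y : V, y ≠ 0 ∧ A y = l • y := by
  obtain ⟨v, hv, hv0⟩ := Submodule.exists_mem_ne_zero_of_ne_bot hl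
  rw [Module.End.mem_maxGenEigenspace] at hv
  classical
  have hex : ∃ k : ℕ, ((A - l • (1 : End ℂ V)) ^ k) v = 0 := hv
  set k := Nat.find hex with hk
  have hk0 : ((A - l • (1 : End ℂ V)) ^ k) v = 0 := Nat.find_spec hex
  have hkpos : k ≠ 0 := by
    intro h0
    rw [h0] at hk0
    exact hv0 (by simpa using hk0)
  obtain ⟨j, hj⟩ := Nat.exists_eq_succ_of_ne_zero hkpos
  refine ⟨((A - l • (1 : End ℂ V)) ^ j) v, ?_, ?_⟩
  · intro h0
    have := Nat.find_min' hex h0
    omega
  · rw [hj, Nat.succ_eq_add_one, pow_succ', Module.End.mul_apply, LinearMap.sub_apply,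
      LinearMap.smul_apply, Module.End.one_apply, sub_eq_zero] at hk0
    exact hk0

lemma trace_eq_sum (A : End ℂ V) : LinearMap.trace ℂ V A =
    ∑ l ∈ (finite_gen A).toFinset, (finrank ℂ (A.maxGenEigenspace l) : ℂ) * l := by
  have h1 : LinearMap.trace ℂ V (A - cal A id) = 0 :=
    (LinearMap.isNilpotent_trace_of_isNilpotent (nil_part A)).eq_zero
  rw [map_sub, trace_cal, sub_eq_zero] at h1
  exact h1

lemma im_trace_nonpos {A : End ℂ V} (h : ∀ (l : ℂ) (y : V), y ≠ 0 → A y = l • y → l.im ≤ 0) :
    (LinearMap.trace ℂ V A).im ≤ 0 := by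
  rw [trace_eq_sum, Complex.im_sum]
  apply Finset.sum_nonpos
  intro l hl
  obtain ⟨y, hy, hyl⟩ := exists_eigenvector (A := A) (l := l) (by simpa using hl)
  have h1 := h l y hy hyl
  have e : ((finrank ℂ (A.maxGenEigenspace l) : ℂ) * l).im =
      (finrank ℂ (A.maxGenEigenspace l) : ℝ) * l.im := by
    simp
  rw [e]
  exact mul_nonpos_of_nonneg_of_nonpos (Nat.cast_nonneg _) h1

lemma cal_mem_of_invariant {T : End ℂ V} {p : Submodule ℂ V} (hp : ∀ x ∈ p, T x ∈ p) (f : ℂ → ℂ)
    {v : V} (hv : v ∈ p) : cal T f v ∈ p := by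
  have h1 : v ∈ ⨆ l, p ⊓ T.maxGenEigenspace l := by
    have h2 := Submodule.inf_iSup_genEigenspace (p := p) (f := T) hp ⊤
    rw [← h2]
    refine ⟨hv, ?_⟩
    have h3 : ⨆ l, T.genEigenspace l ⊤ = ⊤ := T.iSup_maxGenEigenspace_eq_top
    rw [h3]; trivial
  refine Submodule.iSup_induction (motive := fun v => cal T f v ∈ p) _ h1 ?_ ?_ ?_
  · intro l w hw
    rw [cal_apply T f hw.2]
    exact Submodule.smul_mem _ _ hw.1
  · simp
  · intro x y hx hy
    rw [map_add]; exact Submodule.add_mem _ hx hy

lemma eigen_indP {T : End ℂ V} {l : ℂ} {y : V} (h : T y = l • y)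
    (hP : cal T indP y ≠ 0) : 0 < l.im := by
  have h1 : y ∈ T.maxGenEigenspace l := by
    apply Module.End.eigenspace_le_maxGenEigenspace
    exact Module.End.mem_eigenspace_iff.2 h
  rw [cal_apply T indP h1] at hP
  unfold indP at hP
  by_contra hcon
  simp [hcon] at hP

lemma eigen_indP' {T : End ℂ V} {l : ℂ} {y : V} (hy : y ≠ 0) (h : T y = l • y)
    (hP : cal T indP y = 0) : l.im ≤ 0 := by
  have h1 : y ∈ T.maxGenEigenspace l := by
    apply Module.End.eigenspace_le_maxGenEigenspace
    exact Module.End.mem_eigenspace_iff.2 h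
  rw [cal_apply T indP h1] at hP
  unfold indP at hP
  by_contra hcon
  push Not at hcon
  simp [hcon, hy] at hP

/-- among the invariant subspaces the one spanned by the generalised eigenspaces in the upper half
plane has the largest imaginary part of the trace -/
theorem im_trace_le (T U : End ℂ V) (hU : IsIdempotentElem U) (hinv : (1 - U) * T * U = 0) :
    (LinearMap.trace ℂ V (T * U)).im ≤ (LinearMap.trace ℂ V (T * cal T indP)).im := by
  set Pp := cal T indP with hPp
  have hPid : IsIdempotentElem Pp := cal_idem T indP_idem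
  have hPT : Commute T Pp := commute_self_cal T indP
  -- the range of `U` is invariant
  have hU1 : ∀ v, U (U v) = U v := fun v => LinearMap.congr_fun hU v
  have hTU : ∀ v, T (U v) = U (T (U v)) := by
    intro v
    have h1 := LinearMap.congr_fun hinv v
    rw [Module.End.mul_apply, Module.End.mul_apply, LinearMap.sub_apply, Module.End.one_apply,
      LinearMap.zero_apply, sub_eq_zero] at h1
    exact h1
  have hrange : ∀ x ∈ LinearMap.range U, T x ∈ LinearMap.range U := by
    rintro _ ⟨v, rfl⟩
    exact ⟨T (U v), (hTU v).symm⟩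
  have hPU : ∀ v, Pp (U v) = U (Pp (U v)) := by
    intro v
    obtain ⟨w, hw⟩ := cal_mem_of_invariant hrange indP (v := U v) ⟨v, rfl⟩
    rw [← hPp] at hw
    rw [← hw, hU1]
  have hPP : ∀ v, Pp (Pp v) = Pp v := fun v => LinearMap.congr_fun hPid v
  have hTP : ∀ v, T (Pp v) = Pp (T v) := fun v => LinearMap.congr_fun hPT v
  have e : T * U - T * Pp = T * (1 - Pp) * U + -(T * Pp * (1 - U)) := by noncomm_ring
  have e' : (LinearMap.trace ℂ V (T * U)).im - (LinearMap.trace ℂ V (T * Pp)).im =
      (LinearMap.trace ℂ V (T * (1 - Pp) * U)).im +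
        (LinearMap.trace ℂ V (-(T * Pp * (1 - U)))).im := by
    rw [← Complex.sub_im, ← map_sub, e, map_add, Complex.add_im]
  have h1 : (LinearMap.trace ℂ V (T * (1 - Pp) * U)).im ≤ 0 := by
    apply im_trace_nonpos
    intro l y hy hly
    by_cases hl : l = 0
    · rw [hl]; simp
    have hyE : U y = y := by
      have h2 : U (l • y) = l • y := by
        rw [← hly]
        simp only [Module.End.mul_apply, LinearMap.sub_apply, Module.End.one_apply, map_sub]
        rw [← hTU, hPU, ← hTU (Pp (U y))]
      rw [map_smul] at h2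
      exact smul_right_injective V hl h2
    have hy2 : T ((1 - Pp) y) = l • y := by
      rw [← hly, Module.End.mul_apply, Module.End.mul_apply, hyE]
    have hPy : Pp y = 0 := by
      have h3 : Pp (l • y) = 0 := by
        rw [← hy2, LinearMap.sub_apply, Module.End.one_apply, ← hTP, map_sub, hPP, sub_self,
          map_zero]
      rw [map_smul] at h3
      exact (smul_eq_zero.1 h3).resolve_left hl
    rw [LinearMap.sub_apply, Module.End.one_apply, hPy, sub_zero] at hy2
    exact eigen_indP' hy hy2 hPy
  have h2 : (LinearMap.trace ℂ V (-(T * Pp * (1 - U)))).im ≤ 0 := by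
    have e2 : LinearMap.trace ℂ V (-(T * Pp * (1 - U))) =
        LinearMap.trace ℂ V (-((1 - U) * (T * Pp) * (1 - U))) := by
      rw [map_neg, map_neg]
      congr 1
      have h3 : (1 - U) * (1 - U) = 1 - U := by
        have := hU
        unfold IsIdempotentElem at this
        rw [sub_mul, one_mul, mul_sub, mul_one, this, sub_self, sub_zero]
      calc LinearMap.trace ℂ V (T * Pp * (1 - U))
          = LinearMap.trace ℂ V ((1 - U) * (T * Pp)) := LinearMap.trace_mul_comm ℂ _ _
        _ = LinearMap.trace ℂ V ((1 - U) * ((1 - U) * (T * Pp))) := by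
            rw [← mul_assoc (1 - U) (1 - U) (T * Pp), h3]
        _ = LinearMap.trace ℂ V ((1 - U) * (T * Pp) * (1 - U)) := LinearMap.trace_mul_comm ℂ _ _
    rw [e2]
    apply im_trace_nonpos
    intro l y hy hly
    by_cases hl : l = 0
    · rw [hl]; simp
    -- `-l` is an eigenvalue of `T * Pp`
    have hUy : U y = 0 := by
      have h3 : U (l • y) = 0 := by
        rw [← hly]
        simp only [LinearMap.neg_apply, Module.End.mul_apply, map_neg, LinearMap.sub_apply,
          Module.End.one_apply, map_sub, hU1]
        simp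
      rw [map_smul] at h3
      exact (smul_eq_zero.1 h3).resolve_left hl
    have hy1 : (1 - U) (T (Pp y)) = (-l) • y := by
      have h3 : -((1 - U) (T (Pp y))) = l • y := by
        rw [← hly]
        simp only [LinearMap.neg_apply, Module.End.mul_apply, LinearMap.sub_apply,
          Module.End.one_apply, hUy, sub_zero]
      rw [neg_smul, ← h3, neg_neg]
    -- the operator
    set B : End ℂ V := T * Pp + l • 1 with hB
    have hnot : ¬ Function.Injective B := by
      intro hinj
      have hBrange : ∀ x ∈ LinearMap.range U, B x ∈ LinearMap.range U := by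
        intro x hx
        rw [hB, LinearMap.add_apply, LinearMap.smul_apply, Module.End.one_apply]
        refine Submodule.add_mem _ ?_ (Submodule.smul_mem _ _ hx)
        exact hrange _ (cal_mem_of_invariant hrange indP hx)
      have hinj' : Function.Injective (B.restrict hBrange) := by
        intro u v huv
        apply Subtype.ext
        apply hinj
        exact congrArg Subtype.val huv
      have hsurj : Function.Surjective (B.restrict hBrange) :=
        LinearMap.injective_iff_surjective.1 hinj'
      have hBy : B y ∈ LinearMap.range U := by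
        refine ⟨B y, ?_⟩
        have h4 : (1 - U) (B y) = 0 := by
          rw [hB, LinearMap.add_apply, LinearMap.smul_apply, Module.End.one_apply, map_add,
            map_smul, Module.End.mul_apply, hy1]
          simp [hUy]
        rw [LinearMap.sub_apply, Module.End.one_apply, sub_eq_zero] at h4
        exact h4.symm
      obtain ⟨w, hw⟩ := hsurj ⟨B y, hBy⟩
      have h5 : B w = B y := congrArg Subtype.val hw
      have h6 := hinj h5
      obtain ⟨z, hz⟩ := w.2
      apply hy
      rw [← h6, ← hz, ← hU1, hz, h6, hUy]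
    obtain ⟨z, hz0, hz⟩ : ∃ z, z ≠ 0 ∧ B z = 0 := by
      by_contra hcon
      push Not at hcon
      apply hnot
      rw [injective_iff_map_eq_zero]
      intro z hz
      by_contra h0
      exact hcon z h0 hz
    have hz1 : T (Pp z) = (-l) • z := by
      rw [hB, LinearMap.add_apply, LinearMap.smul_apply, Module.End.one_apply,
        Module.End.mul_apply] at hz
      rw [neg_smul]
      exact eq_neg_of_add_eq_zero_left hz
    have hPz : Pp z = z := by
      have h3 : Pp ((-l) • z) = (-l) • z := by
        rw [← hz1, ← hTP, hPP]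
      rw [map_smul] at h3
      exact smul_right_injective V (neg_ne_zero.2 hl) h3
    rw [hPz] at hz1
    have := eigen_indP hz1 (by rw [← hPp, hPz]; exact hz0)
    rw [Complex.neg_im] at this
    linarith
  linarith

end Pool.Agent.K4H32.W
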