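import Mathlib
import Pool.Agent.K4H32.W.Spec

/-! Real semisimple Lie algebras and their complexifications. -/

open Module Module.End LieAlgebra
open scoped TensorProduct ComplexConjugate

noncomputable section

set_option linter.unusedSectionVars false

namespace Pool.Agent.K4H32.W

variable {𝔤 : Type*} [LieRing 𝔤] [LieAlgebra ℝ 𝔤] [FiniteDimensional ℝ 𝔤]

/-- the complexification -/
abbrev LC (𝔤 : Type*) [LieRing 𝔤] [LieAlgebra ℝ 𝔤] : Type _ := ℂ ⊗[ℝ] 𝔤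

lemma exists_re_im (c : LC 𝔤) : ∃ x y : 𝔤, c = (1 : ℂ) ⊗ₜ[ℝ] x + Complex.I • ((1 : ℂ) ⊗ₜ[ℝ] y) := by
  induction c using TensorProduct.induction_on with
  | zero => exact ⟨0, 0, by simp⟩
  | tmul z x =>
    refine ⟨z.re • x, z.im • x, ?_⟩
    rw [← TensorProduct.smul_tmul, ← TensorProduct.smul_tmul, TensorProduct.smul_tmul',
      ← TensorProduct.add_tmul]
    congr 1
    apply Complex.ext <;> simp
  | add a b ha hb =>
    obtain ⟨x, y, rfl⟩ := ha
    obtain ⟨x', y', rfl⟩ := hb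
    refine ⟨x + x', y + y', ?_⟩
    rw [TensorProduct.tmul_add, TensorProduct.tmul_add, smul_add]
    abel

lemma ad_one_tmul (x : 𝔤) : ad ℂ (LC 𝔤) ((1 : ℂ) ⊗ₜ[ℝ] x) = (ad ℝ 𝔤 x).baseChange ℂ :=
  LieModule.toEnd_baseChange ℝ ℂ 𝔤 𝔤 x

lemma killing_one_tmul (x y : 𝔤) :
    killingForm ℂ (LC 𝔤) ((1 : ℂ) ⊗ₜ[ℝ] x) ((1 : ℂ) ⊗ₜ[ℝ] y) = ((killingForm ℝ 𝔤 x y : ℝ) : ℂ) := by
  rw [killingForm_apply_apply, ad_one_tmul, ad_one_tmul, ← LinearMap.baseChange_comp,
    LinearMap.trace_baseChange, killingForm_apply_apply]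
  rfl

instance instIsKillingLC [LieAlgebra.IsKilling ℝ 𝔤] : LieAlgebra.IsKilling ℂ (LC 𝔤) where
  killingCompl_top_eq_bot := by
    rw [eq_bot_iff]
    intro c hc
    rw [LieIdeal.mem_killingCompl] at hc
    obtain ⟨x, y, rfl⟩ := exists_re_im c
    have h1 : ∀ b : 𝔤, killingForm ℝ 𝔤 b x = 0 ∧ killingForm ℝ 𝔤 b y = 0 := by
      intro b
      have h2 := hc ((1 : ℂ) ⊗ₜ[ℝ] b) (LieSubmodule.mem_top _)
      rw [map_add, map_smul, killing_one_tmul, killing_one_tmul] at h2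
      have h3 := congrArg Complex.re h2
      have h4 := congrArg Complex.im h2
      simp at h3 h4
      exact ⟨h3, h4⟩
    have h5 : ∀ z : 𝔤, (∀ b, killingForm ℝ 𝔤 b z = 0) → z = 0 := by
      intro z hz
      have h6 : z ∈ LieIdeal.killingCompl ℝ 𝔤 ⊤ := by
        rw [LieIdeal.mem_killingCompl]
        intro b _
        exact hz b
      rw [LieAlgebra.IsKilling.killingCompl_top_eq_bot] at h6
      simpa using h6
    rw [h5 x fun b => (h1 b).1, h5 y fun b => (h1 b).2]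
    simp

/-- complex conjugation on the complexification -/
def sig : LC 𝔤 →ₗ[ℝ] LC 𝔤 := LinearMap.rTensor 𝔤 Complex.conjAe.toLinearMap

@[simp] lemma sig_tmul (z : ℂ) (x : 𝔤) : sig (z ⊗ₜ[ℝ] x) = (conj z) ⊗ₜ[ℝ] x := rfl

lemma sig_smul (z : ℂ) (c : LC 𝔤) : sig (z • c) = conj z • sig c := by
  induction c using TensorProduct.induction_on with
  | zero => simp
  | tmul w x => rw [TensorProduct.smul_tmul', sig_tmul, sig_tmul, TensorProduct.smul_tmul']; simp
  | add a b ha hb => rw [smul_add, map_add, ha, hb, map_add, smul_add]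

lemma sig_sig (c : LC 𝔤) : sig (sig c) = c := by
  induction c using TensorProduct.induction_on with
  | zero => simp
  | tmul w x => simp
  | add a b ha hb => rw [map_add, map_add, ha, hb]

lemma sig_baseChange (A : 𝔤 →ₗ[ℝ] 𝔤) (c : LC 𝔤) :
    sig (A.baseChange ℂ c) = A.baseChange ℂ (sig c) := by
  induction c using TensorProduct.induction_on with
  | zero => simp
  | tmul w x => simp
  | add a b ha hb => rw [map_add, map_add, ha, hb, map_add, map_add]

lemma sig_gen (A : 𝔤 →ₗ[ℝ] 𝔤) {l : ℂ} {v : LC 𝔤}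
    (hv : v ∈ Module.End.maxGenEigenspace (A.baseChange ℂ : End ℂ (LC 𝔤)) l) :
    sig v ∈ Module.End.maxGenEigenspace (A.baseChange ℂ : End ℂ (LC 𝔤)) (conj l) := by
  rw [Module.End.mem_maxGenEigenspace] at hv ⊢
  obtain ⟨k, hk⟩ := hv
  refine ⟨k, ?_⟩
  have h1 : ∀ (k : ℕ) (w : LC 𝔤),
      (((A.baseChange ℂ : End ℂ (LC 𝔤)) - conj l • (1 : End ℂ (LC 𝔤))) ^ k) (sig w) =
      sig ((((A.baseChange ℂ : End ℂ (LC 𝔤)) - l • (1 : End ℂ (LC 𝔤))) ^ k) w) := by
    intro k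
    induction k with
    | zero => intro w; rfl
    | succ k ih =>
      intro w
      rw [pow_succ, pow_succ, Module.End.mul_apply, Module.End.mul_apply, ← ih]
      congr 1
      rw [LinearMap.sub_apply, LinearMap.sub_apply, LinearMap.smul_apply, LinearMap.smul_apply,
        Module.End.one_apply, Module.End.one_apply, map_sub, sig_smul, sig_baseChange]
  rw [h1, hk, map_zero]

lemma sig_cal (A : 𝔤 →ₗ[ℝ] 𝔤) (f : ℂ → ℂ) (v : LC 𝔤) :
    sig (cal (A.baseChange ℂ) f (sig v)) =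
      cal (A.baseChange ℂ) (fun l => conj (f (conj l))) v := by
  refine gen_induction (A.baseChange ℂ) (p := fun v => sig (cal (A.baseChange ℂ) f (sig v)) =
      cal (A.baseChange ℂ) (fun l => conj (f (conj l))) v) (by simp) ?_ ?_ v
  · intro v w hv hw
    rw [map_add, map_add, map_add, hv, hw, map_add]
  · intro l v hv
    rw [cal_apply _ _ (sig_gen A hv), cal_apply _ _ hv, sig_smul, sig_sig]

lemma indM_eq : indM = fun l => conj (indP (conj l)) := by
  ext l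
  unfold indM indP
  rw [Complex.conj_im]
  by_cases h : l.im < 0
  · rw [if_pos h, if_pos (by linarith)]; simp
  · rw [if_neg h, if_neg (by linarith)]; simp

variable {n : Type*} [Fintype n] [DecidableEq n]

/-- the basis of the complexification -/
abbrev bC (b : Basis n ℝ 𝔤) : Basis n ℂ (LC 𝔤) := Algebra.TensorProduct.basis ℂ b

lemma bC_apply (b : Basis n ℝ 𝔤) (i : n) : bC b i = (1 : ℂ) ⊗ₜ[ℝ] (b i) := by
  simp [bC]

lemma repr_sig (b : Basis n ℝ 𝔤) (c : LC 𝔤) (i : n) :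
    (bC b).repr (sig c) i = conj ((bC b).repr c i) := by
  induction c using TensorProduct.induction_on with
  | zero => simp
  | tmul w x => simp [bC]
  | add a b ha hb => rw [map_add, map_add, Finsupp.add_apply, ha, hb, map_add, Finsupp.add_apply,
      map_add]

lemma trace_conj (b : Basis n ℝ 𝔤) (A B : 𝔤 →ₗ[ℝ] 𝔤) :
    LinearMap.trace ℂ (LC 𝔤) (cal (A.baseChange ℂ) indM * B.baseChange ℂ) =
      conj (LinearMap.trace ℂ (LC 𝔤) (cal (A.baseChange ℂ) indP * B.baseChange ℂ)) := by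
  rw [LinearMap.trace_eq_matrix_trace ℂ (bC b), LinearMap.trace_eq_matrix_trace ℂ (bC b),
    Matrix.trace, Matrix.trace, map_sum]
  refine Finset.sum_congr rfl fun i _ => ?_
  rw [Matrix.diag_apply, Matrix.diag_apply, LinearMap.toMatrix_apply, LinearMap.toMatrix_apply,
    ← repr_sig]
  congr 2
  rw [Module.End.mul_apply, Module.End.mul_apply, indM_eq, ← sig_cal, sig_baseChange, bC_apply,
    sig_tmul, map_one]

/-- the real gradient gives the complex gradient -/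
lemma isGrad_of_real (b : Basis n ℝ 𝔤) {a k : 𝔤} (h : ∀ c : 𝔤, killingForm ℝ 𝔤 k c =
      (LinearMap.trace ℂ (LC 𝔤) (cal ((ad ℝ 𝔤 a).baseChange ℂ) indP *
        (ad ℝ 𝔤 c).baseChange ℂ)).im) :
    IsGrad ((1 : ℂ) ⊗ₜ[ℝ] a : LC 𝔤) ((1 : ℂ) ⊗ₜ[ℝ] k) := by
  have h1 : ∀ c : 𝔤, killingForm ℂ (LC 𝔤) ((1 : ℂ) ⊗ₜ[ℝ] k) ((1 : ℂ) ⊗ₜ[ℝ] c) =
      (1 / (2 * Complex.I)) *
      (LinearMap.trace ℂ (LC 𝔤) (cal (ad ℂ (LC 𝔤) ((1 : ℂ) ⊗ₜ[ℝ] a)) indP *
          ad ℂ (LC 𝔤) ((1 : ℂ) ⊗ₜ[ℝ] c)) -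
        LinearMap.trace ℂ (LC 𝔤) (cal (ad ℂ (LC 𝔤) ((1 : ℂ) ⊗ₜ[ℝ] a)) indM *
          ad ℂ (LC 𝔤) ((1 : ℂ) ⊗ₜ[ℝ] c))) := by
    intro c
    rw [killing_one_tmul, h, ad_one_tmul, ad_one_tmul, trace_conj b]
    set z := LinearMap.trace ℂ (LC 𝔤) (cal ((ad ℝ 𝔤 a).baseChange ℂ) indP *
        (ad ℝ 𝔤 c).baseChange ℂ)
    rw [Complex.sub_conj]
    have hI := Complex.I_ne_zero
    field_simp
    push_cast
    ring
  intro c
  obtain ⟨x, y, rfl⟩ := exists_re_im c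
  rw [map_add, map_smul, h1, h1, map_add, map_smul, mul_add, mul_add, mul_smul_comm, mul_smul_comm,
    map_add, map_add, map_smul, map_smul, smul_eq_mul, smul_eq_mul, smul_eq_mul]
  ring

/-- existence of the real gradient -/
lemma exists_real_grad [LieAlgebra.IsKilling ℝ 𝔤] (a : 𝔤) : ∃ k : 𝔤, ∀ c : 𝔤,
    killingForm ℝ 𝔤 k c = (LinearMap.trace ℂ (LC 𝔤) (cal ((ad ℝ 𝔤 a).baseChange ℂ) indP *
        (ad ℝ 𝔤 c).baseChange ℂ)).im := by
  let φ : 𝔤 →ₗ[ℝ] ℝ :=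
    { toFun := fun c => (LinearMap.trace ℂ (LC 𝔤) (cal ((ad ℝ 𝔤 a).baseChange ℂ) indP *
        (ad ℝ 𝔤 c).baseChange ℂ)).im
      map_add' := by
        intro x y
        rw [map_add, LinearMap.baseChange_add, mul_add, map_add, Complex.add_im]
      map_smul' := by
        intro r x
        rw [map_smul, LinearMap.baseChange_smul, mul_smul_comm]
        have e : ∀ Z : End ℂ (LC 𝔤), LinearMap.trace ℂ (LC 𝔤) (r • Z) =
            (r : ℂ) * LinearMap.trace ℂ (LC 𝔤) Z := by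
          intro Z
          rw [← smul_eq_mul, ← map_smul]
          rfl
        rw [e]
        simp }
  have hnd := LieAlgebra.IsKilling.killingForm_nondegenerate ℝ 𝔤
  refine ⟨(LinearMap.BilinForm.toDual (killingForm ℝ 𝔤) hnd).symm φ, fun c => ?_⟩
  exact LinearMap.BilinForm.apply_toDual_symm_apply (hB := hnd) φ c

end Pool.Agent.K4H32.W
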