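import Mathlib
import Pool.Agent.K4H32.W.RealForm

/-! The gradient generates a periodic one-parameter group of the adjoint group. -/

open Module Module.End LieAlgebra
open scoped TensorProduct ComplexConjugate Matrix Nat

noncomputable section

set_option linter.unusedSectionVars false

namespace Pool.Agent.K4H32.W

variable {n : Type*} [Fintype n] [DecidableEq n]

section
attribute [local instance] Matrix.linftyOpNormedRing Matrix.linftyOpNormedAlgebra

lemma exp_mulVec_aux {A : Matrix n n ℂ} {w : n → ℂ} {μ : ℂ} (h : A *ᵥ w = μ • w) :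
    NormedSpace.exp A *ᵥ w = Complex.exp μ • w := by
  have h1 : HasSum (fun k : ℕ => ((k ! : ℂ)⁻¹) • A ^ k) (NormedSpace.exp A) :=
    NormedSpace.exp_series_hasSum_exp' (𝕂 := ℂ) A
  have hpow : ∀ k : ℕ, (A ^ k) *ᵥ w = μ ^ k • w := by
    intro k
    induction k with
    | zero => simp
    | succ k ih =>
      rw [pow_succ, ← Matrix.mulVec_mulVec, h, Matrix.mulVec_smul, ih, smul_smul, pow_succ,
        mul_comm]
  let ev : Matrix n n ℂ →ₗ[ℂ] (n → ℂ) :=
    { toFun := fun M => M *ᵥ w
      map_add' := fun M N => Matrix.add_mulVec M N w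
      map_smul' := fun c M => Matrix.smul_mulVec c M w }
  have hevc : Continuous ev := ev.continuous_of_finiteDimensional
  have h2 : HasSum (fun k : ℕ => ev (((k ! : ℂ)⁻¹) • A ^ k)) (ev (NormedSpace.exp A)) :=
    h1.map ev hevc
  have h3 : HasSum (fun k : ℕ => (((k ! : ℂ)⁻¹) • μ ^ k)) (NormedSpace.exp μ) :=
    NormedSpace.exp_series_hasSum_exp' (𝕂 := ℂ) μ
  have h4 : HasSum (fun k : ℕ => (((k ! : ℂ)⁻¹) • μ ^ k) • w) (NormedSpace.exp μ • w) :=
    h3.smul_const w
  have h5 : (fun k : ℕ => ev (((k ! : ℂ)⁻¹) • A ^ k)) = fun k : ℕ => (((k ! : ℂ)⁻¹) • μ ^ k) • w := by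
    ext1 k
    rw [map_smul]
    show ((k ! : ℂ)⁻¹) • ((A ^ k) *ᵥ w) = _
    rw [hpow, smul_smul, smul_eq_mul]
  rw [h5] at h2
  rw [Complex.exp_eq_exp_ℂ]
  exact h2.unique h4

lemma exp_map_ofReal_aux (A : Matrix n n ℝ) :
    (NormedSpace.exp A).map Complex.ofReal = NormedSpace.exp (A.map Complex.ofReal) := by
  have h := NormedSpace.map_exp (Complex.ofRealHom.mapMatrix : Matrix n n ℝ →+* Matrix n n ℂ)
    (by
      show Continuous fun A : Matrix n n ℝ => A.map Complex.ofReal
      exact Continuous.matrix_map continuous_id Complex.continuous_ofReal) A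
  exact h

end

lemma exp_mulVec {A : Matrix n n ℂ} {w : n → ℂ} {μ : ℂ} (h : A *ᵥ w = μ • w) :
    NormedSpace.exp A *ᵥ w = Complex.exp μ • w := exp_mulVec_aux h

lemma exp_map_ofReal (A : Matrix n n ℝ) :
    (NormedSpace.exp A).map Complex.ofReal = NormedSpace.exp (A.map Complex.ofReal) :=
  exp_map_ofReal_aux A

variable {𝔤 : Type*} [LieRing 𝔤] [LieAlgebra ℝ 𝔤] [FiniteDimensional ℝ 𝔤]
  [LieAlgebra.IsKilling ℝ 𝔤]

/-- the gradient is an elliptic element with rational eigenvalues: a multiple of it exponentiates to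
the identity in the adjoint representation -/
theorem exists_period (b : Basis n ℝ 𝔤) {a k : 𝔤} (h : ∀ c : 𝔤, killingForm ℝ 𝔤 k c =
      (LinearMap.trace ℂ (LC 𝔤) (cal ((ad ℝ 𝔤 a).baseChange ℂ) indP *
        (ad ℝ 𝔤 c).baseChange ℂ)).im) :
    ∃ T : ℝ, 0 < T ∧ NormedSpace.exp (LinearMap.toMatrix b b (ad ℝ 𝔤 (T • k))) = 1 := by
  classical
  have hg := isGrad_of_real b h
  set K := ad ℂ (LC 𝔤) ((1 : ℂ) ⊗ₜ[ℝ] k) with hK
  have hss : K = cal K id := hg.semisimple
  choose! q hq using hg.eigenvalue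
  set Λ := (finite_gen K).toFinset with hΛ
  set N : ℕ := ∏ l ∈ Λ, (q l).den with hN
  have hNpos : 0 < N := Finset.prod_pos fun l _ => (q l).den_pos
  have hint : ∀ l ∈ Λ, ∃ z : ℤ, (N : ℚ) * q l = z := by
    intro l hl
    obtain ⟨m, hm⟩ := Finset.dvd_prod_of_mem (fun l => (q l).den) hl
    refine ⟨m * (q l).num, ?_⟩
    rw [hN, hm]
    push_cast
    have := Rat.mul_den_eq_num (q l)
    calc ((q l).den : ℚ) * m * q l = m * (q l * (q l).den) := by ring
      _ = _ := by rw [this]
  set T : ℝ := 2 * Real.pi * N with hT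
  refine ⟨T, by positivity, ?_⟩
  set A := LinearMap.toMatrix b b (ad ℝ 𝔤 (T • k)) with hA
  have hAc : A.map Complex.ofReal = (T : ℂ) • LinearMap.toMatrix (bC b) (bC b) K := by
    have h1 : LinearMap.toMatrix (bC b) (bC b) ((ad ℝ 𝔤 (T • k)).baseChange ℂ) =
        A.map (algebraMap ℝ ℂ) := LinearMap.toMatrix_baseChange ℂ _ b b
    have h2 : A.map (algebraMap ℝ ℂ) = A.map Complex.ofReal := rfl
    rw [← h2, ← h1, map_smul, LinearMap.baseChange_smul, hK, ad_one_tmul]
    rw [← map_smul]
    rfl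
  have hexp : NormedSpace.exp (A.map Complex.ofReal) = 1 := by
    have key : ∀ c : LC 𝔤, NormedSpace.exp (A.map Complex.ofReal) *ᵥ ((bC b).equivFun c) =
        (bC b).equivFun c := by
      intro c
      refine gen_induction K (p := fun c => NormedSpace.exp (A.map Complex.ofReal) *ᵥ
        ((bC b).equivFun c) = (bC b).equivFun c) (by simp) ?_ ?_ c
      · intro v w hv hw
        rw [map_add, Matrix.mulVec_add, hv, hw]
      · intro l v hv
        by_cases hl : K.maxGenEigenspace l = ⊥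
        · rw [hl] at hv
          rw [(Submodule.mem_bot ℂ).1 hv]; simp
        have hlΛ : l ∈ Λ := by simpa [hΛ] using hl
        have h1 : (A.map Complex.ofReal) *ᵥ ((bC b).equivFun v) =
            ((T : ℂ) * l) • (bC b).equivFun v := by
          have h2 : LinearMap.toMatrix (bC b) (bC b) K *ᵥ ((bC b).equivFun v) =
              (bC b).equivFun (K v) := LinearMap.toMatrix_mulVec_repr (bC b) (bC b) K v
          rw [hAc, Matrix.smul_mulVec, h2, hss, cal_apply K id hv, map_smul, smul_smul]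
          rfl
        rw [exp_mulVec h1]
        obtain ⟨z, hz⟩ := hint l hlΛ
        have h3 : (T : ℂ) * l = z * (2 * Real.pi * Complex.I) := by
          have h4 : ((N : ℚ) : ℂ) * (q l : ℂ) = (z : ℂ) := by exact_mod_cast congrArg (Rat.cast : ℚ → ℂ) hz
          rw [hq l hl, hT]
          push_cast at h4 ⊢
          rw [← h4]
          ring
        rw [h3, Complex.exp_int_mul_two_pi_mul_I, one_smul]
    apply Matrix.ext_of_mulVec_single
    intro i
    obtain ⟨c, hc⟩ := (bC b).equivFun.surjective (Pi.single i 1)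
    rw [← hc, key, Matrix.one_mulVec]
  have h5 := exp_map_ofReal A
  rw [hexp] at h5
  ext i j
  have h6 := congrFun (congrFun h5 i) j
  rw [Matrix.map_apply] at h6
  by_cases hij : i = j
  · subst hij
    rw [Matrix.one_apply_eq] at h6 ⊢
    exact_mod_cast h6
  · rw [Matrix.one_apply_ne hij] at h6 ⊢
    exact_mod_cast h6

end Pool.Agent.K4H32.W
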