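import Mathlib

/-! Perturbation of a spectral projection: the trace on the perturbed invariant subspace. -/

open Filter
open scoped Topology

noncomputable section

set_option linter.unusedSectionVars false

namespace Pool.Agent.K4H32.W

variable {𝔸 : Type*} [NormedRing 𝔸] [NormedAlgebra ℂ 𝔸] [FiniteDimensional ℂ 𝔸]

/-- the projection to the block `(1 - P) 𝔸 P` -/
def blk (P : 𝔸) : 𝔸 →L[ℂ] 𝔸 :=
  ((ContinuousLinearMap.mul ℂ 𝔸) (1 - P)).comp ((ContinuousLinearMap.mul ℂ 𝔸).flip P)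

lemma blk_apply (P X : 𝔸) : blk P X = (1 - P) * (X * P) := rfl

theorem perturb (τ : 𝔸 →L[ℂ] ℂ) (hτ : ∀ x y, τ (x * y) = τ (y * x)) {L₀ P : 𝔸}
    (hP : P * P = P) (hcom : ∀ X, L₀ * X = X * L₀ → P * X = X * P) :
    ∃ C : ℝ, ∀ᶠ L in 𝓝 L₀, ∃ U : 𝔸, U * U = U ∧ (1 - U) * L * U = 0 ∧
      ‖τ (L * U) - τ (L * P)‖ ≤ C * ‖L - L₀‖ ^ 2 := by
  have : CompleteSpace 𝔸 := FiniteDimensional.complete ℂ 𝔸
  have hPL : L₀ * P = P * L₀ := (hcom L₀ rfl).symm
  have h1P : (1 - P) * P = 0 := by rw [sub_mul, one_mul, hP, sub_self]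
  have hP1 : P * (1 - P) = 0 := by rw [mul_sub, mul_one, hP, sub_self]
  have h1P1 : (1 - P) * (1 - P) = 1 - P := by rw [mul_sub, mul_one, h1P, sub_zero]
  have hb1 : ∀ X, (1 - P) * blk P X = blk P X := by
    intro X; rw [blk_apply, ← mul_assoc, h1P1]
  have hb2 : ∀ X, blk P X * P = blk P X := by
    intro X; rw [blk_apply, mul_assoc, mul_assoc, hP]
  have hb3 : ∀ X, P * blk P X = 0 := by
    intro X; rw [blk_apply, ← mul_assoc, hP1, zero_mul]
  have hb4 : ∀ X Y, blk P X * blk P Y = 0 := by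
    intro X Y; rw [← hb2 X, mul_assoc, hb3, mul_zero]
  let f : 𝔸 × 𝔸 → 𝔸 := fun u => (1 - P - blk P u.2) * u.1 * (P + blk P u.2) + (u.2 - blk P u.2)
  have hA : HasStrictFDerivAt (𝕜 := ℂ) (fun u : 𝔸 × 𝔸 => 1 - P - blk P u.2)
      (-((blk P).comp (ContinuousLinearMap.snd ℂ 𝔸 𝔸))) (L₀, 0) :=
    ((blk P).comp (ContinuousLinearMap.snd ℂ 𝔸 𝔸)).hasStrictFDerivAt.const_sub (1 - P)
  have hB : HasStrictFDerivAt (𝕜 := ℂ) (fun u : 𝔸 × 𝔸 => u.1)
      (ContinuousLinearMap.fst ℂ 𝔸 𝔸) (L₀, 0) :=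
    (ContinuousLinearMap.fst ℂ 𝔸 𝔸).hasStrictFDerivAt
  have hC : HasStrictFDerivAt (𝕜 := ℂ) (fun u : 𝔸 × 𝔸 => P + blk P u.2)
      ((blk P).comp (ContinuousLinearMap.snd ℂ 𝔸 𝔸)) (L₀, 0) :=
    ((blk P).comp (ContinuousLinearMap.snd ℂ 𝔸 𝔸)).hasStrictFDerivAt.const_add P
  have hE : HasStrictFDerivAt (𝕜 := ℂ) (fun u : 𝔸 × 𝔸 => u.2 - blk P u.2)
      (ContinuousLinearMap.snd ℂ 𝔸 𝔸 - (blk P).comp (ContinuousLinearMap.snd ℂ 𝔸 𝔸)) (L₀, 0) :=
    (ContinuousLinearMap.snd ℂ 𝔸 𝔸 - (blk P).comp (ContinuousLinearMap.snd ℂ 𝔸 𝔸)).hasStrictFDerivAt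
  obtain ⟨f', hf, hpart⟩ : ∃ f' : 𝔸 × 𝔸 →L[ℂ] 𝔸, HasStrictFDerivAt f f' (L₀, 0) ∧
      ∀ Y : 𝔸, (f' ∘L .inr ℂ 𝔸 𝔸) Y =
        (1 - P) * L₀ * blk P Y - blk P Y * L₀ * P + (Y - blk P Y) := by
    refine ⟨_, ((hA.mul' hB).mul' hC).add hE, ?_⟩
    intro Y
    simp
    noncomm_ring
  have hinj : Function.Injective (f' ∘L .inr ℂ 𝔸 𝔸) := by
    rw [injective_iff_map_eq_zero]
    intro Y hY
    rw [hpart] at hY
    have e1 : (1 - P) * L₀ * blk P Y = L₀ * blk P Y := by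
      have : (1 - P) * L₀ = L₀ * (1 - P) := by rw [sub_mul, mul_sub, one_mul, mul_one, hPL]
      rw [this, mul_assoc, hb1]
    have e2 : blk P Y * L₀ * P = blk P Y * L₀ := by
      rw [mul_assoc, hPL, ← mul_assoc, hb2]
    rw [e1, e2] at hY
    have e3 : L₀ * blk P Y = blk P Y * L₀ := by
      have h1 : (1 - P) * ((L₀ * blk P Y - blk P Y * L₀ + (Y - blk P Y)) * P) =
          (1 - P) * (0 * P) := congrArg (fun Z => (1 - P) * (Z * P)) hY
      rw [zero_mul, mul_zero] at h1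
      have e4 : (1 - P) * ((L₀ * blk P Y - blk P Y * L₀ + (Y - blk P Y)) * P) =
          ((1 - P) * (L₀ * blk P Y)) * P - ((1 - P) * blk P Y) * (L₀ * P) +
          (blk P Y - ((1 - P) * blk P Y) * P) := by
        rw [blk_apply]; noncomm_ring
      rw [e4, hb1, hb2, sub_self, add_zero, hPL] at h1
      have e5 : (1 - P) * (L₀ * blk P Y) = L₀ * blk P Y := by rw [← mul_assoc, e1]
      rw [e5, mul_assoc, hb2, ← mul_assoc, hb2] at h1
      simpa [sub_eq_zero] using h1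
    have e6 := hcom _ e3
    rw [hb3, hb2] at e6
    rw [← e6] at hY
    simpa using hY
  have hinv : (f' ∘L .inr ℂ 𝔸 𝔸).IsInvertible := by
    let e := LinearEquiv.ofInjectiveEndo (f' ∘L .inr ℂ 𝔸 𝔸 : 𝔸 →L[ℂ] 𝔸).toLinearMap hinj
    refine ⟨e.toContinuousLinearEquiv, ?_⟩
    ext Y
    rfl
  set ψ := hf.implicitFunctionOfProdDomain hinv with hψ
  have hψd := hf.hasStrictFDerivAt_implicitFunctionOfProdDomain hinv
  have hψ0 : ψ L₀ = 0 :=
    (hf.eventually_apply_eq_iff_implicitFunctionOfProdDomain hinv).self_of_nhds.mp rfl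
  have hev := hf.eventually_apply_implicitFunctionOfProdDomain hinv
  have hf0 : f (L₀, 0) = 0 := by
    simp only [f, map_zero, sub_zero, add_zero]
    rw [mul_assoc, hPL, ← mul_assoc, h1P, zero_mul]
  obtain ⟨K, hK⟩ := hψd.hasFDerivAt.isBigO_sub.bound
  have hK' : ∀ᶠ L in 𝓝 L₀, ‖ψ L‖ ≤ K * ‖L - L₀‖ := by
    filter_upwards [hK] with L hL
    have h1 : ‖ψ L - ψ L₀‖ ≤ K * ‖L - L₀‖ := hL
    rwa [hψ0, sub_zero] at h1
  refine ⟨‖τ‖ * (‖P‖ * ‖1 - P‖ * (‖blk P‖ * K)), ?_⟩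
  filter_upwards [hev, hK'] with L h1 h2
  have h1' : f (L, ψ L) = 0 := by rw [← hf0]; exact h1
  set X := ψ L with hX
  have h3 : (1 - P - blk P X) * L * (P + blk P X) = 0 := by
    have h4 := congrArg (fun Z => (1 - P) * (Z * P)) h1'
    simp only [f] at h4
    have e1 : (1 - P) * (((1 - P - blk P X) * L * (P + blk P X) + (X - blk P X)) * P) =
        ((1 - P) * (1 - P - blk P X)) * L * ((P + blk P X) * P) +
          (blk P X - ((1 - P) * blk P X) * P) := by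
      rw [blk_apply]; noncomm_ring
    have e2 : (1 - P) * (1 - P - blk P X) = 1 - P - blk P X := by
      rw [mul_sub, hb1, h1P1]
    have e3 : (P + blk P X) * P = P + blk P X := by rw [add_mul, hP, hb2]
    rw [e1, e2, e3, hb1, hb2, sub_self, add_zero] at h4
    simpa using h4
  refine ⟨P + blk P X, ?_, ?_, ?_⟩
  · rw [add_mul, mul_add, mul_add, hP, hb3, hb2, hb4]; simp
  · have : 1 - (P + blk P X) = 1 - P - blk P X := by abel
    rw [this, h3]
  · have e1 : τ (L * (P + blk P X)) - τ (L * P) = τ (P * (L - L₀) * (1 - P) * blk P X) := by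
      rw [mul_add, map_add, add_sub_cancel_left]
      have e2 : τ (L * blk P X) = τ (P * L * blk P X) := by
        rw [← hb2 X, ← mul_assoc, hτ (L * blk P X) P, ← mul_assoc, hb2]
      have e3 : P * L₀ * blk P X = 0 := by
        rw [← hPL, mul_assoc, hb3, mul_zero]
      have e4 : P * (L - L₀) * (1 - P) * blk P X = P * L * blk P X := by
        rw [mul_assoc (P * (L - L₀)), hb1, mul_sub P, sub_mul, e3, sub_zero]
      rw [e4, e2]
    rw [e1]
    calc ‖τ (P * (L - L₀) * (1 - P) * blk P X)‖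
        ≤ ‖τ‖ * ‖P * (L - L₀) * (1 - P) * blk P X‖ := τ.le_opNorm _
      _ ≤ ‖τ‖ * (‖P‖ * ‖L - L₀‖ * ‖1 - P‖ * (‖blk P‖ * (K * ‖L - L₀‖))) := by
          gcongr
          calc ‖P * (L - L₀) * (1 - P) * blk P X‖
              ≤ ‖P * (L - L₀) * (1 - P)‖ * ‖blk P X‖ := norm_mul_le _ _
            _ ≤ (‖P * (L - L₀)‖ * ‖1 - P‖) * (‖blk P‖ * ‖X‖) := by
                gcongr
                · exact norm_mul_le _ _
                · exact (blk P).le_opNorm _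
            _ ≤ _ := by
                gcongr
                exact norm_mul_le _ _
      _ = _ := by ring

end Pool.Agent.K4H32.W
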