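import Mathlib
import Pool.Agent.K4H32.W.Spec
import Pool.Agent.K4H32.W.Pert

/-! Existence of a maximum of the sum of the positive imaginary parts of the eigenvalues. -/

open Module Module.End Filter
open scoped Topology Matrix

noncomputable section

set_option linter.unusedSectionVars false

namespace Pool.Agent.K4H32.W

variable {n : Type*} [Fintype n] [DecidableEq n]

lemma isUnit_one_add_skew {K : Matrix n n ℂ} (hK : Kᴴ = -K) : IsUnit (1 + K) := by
  rw [← Matrix.mulVec_injective_iff_isUnit]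
  have hzero : ∀ v, (1 + K) *ᵥ v = 0 → v = 0 := by
    intro v hv
    rw [Matrix.add_mulVec, Matrix.one_mulVec] at hv
    have h1 : star v ⬝ᵥ v + star v ⬝ᵥ (K *ᵥ v) = 0 := by
      rw [← dotProduct_add, hv, dotProduct_zero]
    have h2 : star v ⬝ᵥ (K *ᵥ v) = star (-(star v ⬝ᵥ (K *ᵥ v))) := by
      conv_lhs => rw [Matrix.star_dotProduct, Matrix.star_mulVec, hK]
      rw [← Matrix.dotProduct_mulVec, Matrix.neg_mulVec, dotProduct_neg]
    have h3 : (star v ⬝ᵥ (K *ᵥ v)).re = 0 := by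
      have := congrArg Complex.re h2
      simp at this
      linarith
    have h4 : (star v ⬝ᵥ v).re = 0 := by
      have := congrArg Complex.re h1
      rw [Complex.add_re, h3] at this
      simpa using this
    have h5 : (star v ⬝ᵥ v).re = ∑ i, ‖v i‖ ^ 2 := by
      rw [dotProduct, Complex.re_sum]
      refine Finset.sum_congr rfl fun i _ => ?_
      rw [Pi.star_apply, Complex.star_def, ← Complex.normSq_eq_conj_mul_self, Complex.ofReal_re,
        Complex.normSq_eq_norm_sq]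
    rw [h5] at h4
    ext i
    have h6 := (Finset.sum_eq_zero_iff_of_nonneg (fun i _ => sq_nonneg ‖v i‖)).1 h4 i
      (Finset.mem_univ i)
    simpa using h6
  intro v w hvw
  have : (1 + K) *ᵥ (v - w) = 0 := by
    have h1 : (1 + K) *ᵥ v = (1 + K) *ᵥ w := hvw
    rw [Matrix.mulVec_sub, h1, sub_self]
  exact sub_eq_zero.1 (hzero _ this)

/-- replace an idempotent by the Hermitian projection with the same range -/
lemma exists_hermitian {L U : Matrix n n ℂ} (hU : U * U = U) (hinv : (1 - U) * L * U = 0) :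
    ∃ Q : Matrix n n ℂ, Qᴴ = Q ∧ Q * Q = Q ∧ (1 - Q) * L * Q = 0 ∧
      Matrix.trace (L * Q) = Matrix.trace (L * U) := by
  have hK : (U - Uᴴ)ᴴ = -(U - Uᴴ) := by
    rw [Matrix.conjTranspose_sub, Matrix.conjTranspose_conjTranspose]; abel
  obtain ⟨W, hW⟩ := isUnit_one_add_skew hK
  set A : Matrix n n ℂ := 1 + (U - Uᴴ) with hA
  set Wi : Matrix n n ℂ := ((W⁻¹ : (Matrix n n ℂ)ˣ) : Matrix n n ℂ) with hWi
  have hWA : Wi * A = 1 := by rw [← hW, hWi]; exact Units.inv_mul W
  have hAW : A * Wi = 1 := by rw [← hW, hWi]; exact Units.mul_inv W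
  set Q := U * Wi with hQ
  have hQA : Q * A = U := by rw [hQ, mul_assoc, hWA, mul_one]
  have hUQ : U * Q = Q := by rw [hQ, ← mul_assoc, hU]
  have hUH : Uᴴ * Uᴴ = Uᴴ := by rw [← Matrix.conjTranspose_mul, hU]
  have hAH : Aᴴ = 1 + (Uᴴ - U) := by
    rw [hA, Matrix.conjTranspose_add, Matrix.conjTranspose_one, Matrix.conjTranspose_sub,
      Matrix.conjTranspose_conjTranspose]
  have hWAH : Wiᴴ * Aᴴ = 1 := by rw [← Matrix.conjTranspose_mul, hAW, Matrix.conjTranspose_one]
  have h1 : Aᴴ * U = Uᴴ * A := by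
    rw [hAH, hA]
    have e1 : (1 + (Uᴴ - U)) * U = U + Uᴴ * U - U * U := by noncomm_ring
    have e2 : Uᴴ * (1 + (U - Uᴴ)) = Uᴴ + Uᴴ * U - Uᴴ * Uᴴ := by noncomm_ring
    rw [e1, e2, hU, hUH]; abel
  have hQH : Qᴴ = Q := by
    have e1 : Qᴴ = Wiᴴ * (Uᴴ * A) * Wi := by
      rw [hQ, Matrix.conjTranspose_mul, mul_assoc, mul_assoc, hAW, mul_one]
    rw [e1, ← h1, ← mul_assoc, hWAH, one_mul]
  have hQU : Q * U = U := by
    have e1 : Q * Uᴴ = Q := by
      have := congrArg Matrix.conjTranspose hUQ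
      rw [Matrix.conjTranspose_mul, hQH] at this
      exact this
    have e2 : Q * A = Q + (Q * U - Q * Uᴴ) := by rw [hA]; noncomm_ring
    rw [e1, hQA] at e2
    have e3 : Q + (Q * U - Q) = Q * U := by abel
    rw [e3] at e2
    exact e2.symm
  have hQQ : Q * Q = Q := by
    conv_lhs => rw [← hUQ, ← mul_assoc, mul_assoc U Q U, hQU, hU]
    exact hUQ
  have hLU : L * U = U * (L * U) := by
    have : (1 - U) * L * U = L * U - U * (L * U) := by noncomm_ring
    rw [this, sub_eq_zero] at hinv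
    exact hinv
  have hLQ : L * Q = U * (L * Q) := by
    have e1 : L * Q = L * U * Q := by rw [mul_assoc, hUQ]
    conv_lhs => rw [e1, hLU]
    rw [mul_assoc, mul_assoc, hUQ]
  refine ⟨Q, hQH, hQQ, ?_, ?_⟩
  · rw [mul_assoc, hLQ, ← mul_assoc]
    have : (1 - Q) * U = 0 := by rw [sub_mul, one_mul, hQU, sub_self]
    rw [this, zero_mul]
  · calc Matrix.trace (L * Q) = Matrix.trace (L * U * Q) := by rw [mul_assoc, hUQ]
      _ = Matrix.trace (Q * (L * U)) := Matrix.trace_mul_comm _ _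
      _ = Matrix.trace (Q * (U * (L * U))) := by rw [← hLU]
      _ = Matrix.trace (L * U) := by rw [← mul_assoc, hQU, ← hLU]

lemma norm_entry_le {Q : Matrix n n ℂ} (hQ : Qᴴ = Q) (hQQ : Q * Q = Q) (i j : n) :
    ‖Q i j‖ ≤ 1 := by
  have h1 : ∀ i, Q i i = ((∑ j, ‖Q i j‖ ^ 2 : ℝ) : ℂ) := by
    intro i
    have e1 : (Q * Q) i i = Q i i := by rw [hQQ]
    rw [Matrix.mul_apply] at e1
    rw [← e1]
    push_cast
    refine Finset.sum_congr rfl fun j _ => ?_
    have e2 : Q j i = star (Q i j) := by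
      conv_lhs => rw [← hQ]
      rfl
    rw [e2, Complex.star_def, Complex.mul_conj, Complex.normSq_eq_norm_sq]
    push_cast
    rfl
  have h2 : (Q i i).re = ∑ j, ‖Q i j‖ ^ 2 := by rw [h1 i, Complex.ofReal_re]
  have h3 : ‖Q i i‖ = (Q i i).re := by
    rw [h1 i, Complex.norm_real, Complex.ofReal_re, Real.norm_of_nonneg]
    exact Finset.sum_nonneg fun _ _ => sq_nonneg _
  have h4 : ‖Q i i‖ ^ 2 ≤ (Q i i).re := by
    rw [h2]
    exact Finset.single_le_sum (f := fun j => ‖Q i j‖ ^ 2) (fun _ _ => sq_nonneg _)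
      (Finset.mem_univ i)
  have h5 : (Q i i).re ≤ 1 := by
    rw [h3] at h4
    nlinarith [h4, sq_nonneg ((Q i i).re)]
  have h6 : ‖Q i j‖ ^ 2 ≤ 1 := by
    refine le_trans ?_ h5
    rw [h2]
    exact Finset.single_le_sum (f := fun j => ‖Q i j‖ ^ 2) (fun _ _ => sq_nonneg _)
      (Finset.mem_univ j)
  exact (sq_le_one_iff₀ (norm_nonneg _)).1 h6

lemma isCompact_proj : IsCompact {Q : Matrix n n ℂ | Qᴴ = Q ∧ Q * Q = Q} := by
  have h1 : IsCompact (Set.pi Set.univ fun _ : n => Set.pi Set.univ fun _ : n =>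
      Metric.closedBall (0:ℂ) 1) :=
    isCompact_univ_pi fun _ => isCompact_univ_pi fun _ => isCompact_closedBall _ _
  refine IsCompact.of_isClosed_subset h1 ?_ ?_
  · apply IsClosed.inter
    · exact isClosed_eq (Continuous.matrix_conjTranspose continuous_id) continuous_id
    · exact isClosed_eq (Continuous.matrix_mul continuous_id continuous_id) continuous_id
  · rintro Q ⟨h2, h3⟩ i _ j _
    rw [mem_closedBall_zero_iff]
    exact norm_entry_le h2 h3 i j

variable {V : Type*} [AddCommGroup V] [Module ℂ V] [FiniteDimensional ℂ V]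

lemma trace_toMatrix (e : Basis n ℂ V) (A : End ℂ V) :
    LinearMap.trace ℂ V A = Matrix.trace (LinearMap.toMatrixAlgEquiv e A) :=
  LinearMap.trace_eq_matrix_trace ℂ e A

/-- **Existence of the maximum.** -/
theorem exists_max {X : Type*} [TopologicalSpace X] (e : Basis n ℂ V) (T : X → End ℂ V)
    (hT : Continuous fun x => LinearMap.toMatrixAlgEquiv e (T x)) {D : Set X} (hD : IsCompact D)
    (hcov : ∀ x, ∃ y ∈ D, ∃ φ : V ≃ₗ[ℂ] V, ∀ v, T y (φ v) = φ (T x v))
    {x₁ : X} {l : ℂ} {y₁ : V} (hy₁ : y₁ ≠ 0) (hly₁ : T x₁ y₁ = l • y₁) (hl : 0 < l.im) :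
    ∃ x₀ : X, 0 < (LinearMap.trace ℂ V (T x₀ * cal (T x₀) indP)).im ∧
      ∀ (x : X) (U : End ℂ V), U * U = U → (1 - U) * T x * U = 0 →
        (LinearMap.trace ℂ V (T x * U)).im ≤
          (LinearMap.trace ℂ V (T x₀ * cal (T x₀) indP)).im := by
  set tm := LinearMap.toMatrixAlgEquiv e with htm
  let K : Set (X × Matrix n n ℂ) := {p | p.1 ∈ D ∧ (p.2ᴴ = p.2 ∧ p.2 * p.2 = p.2) ∧
    (1 - p.2) * tm (T p.1) * p.2 = 0}
  have hK : IsCompact K := by
    have h1 : IsCompact (D ×ˢ {Q : Matrix n n ℂ | Qᴴ = Q ∧ Q * Q = Q}) := hD.prod isCompact_proj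
    have h2 : IsClosed {p : X × Matrix n n ℂ | (1 - p.2) * tm (T p.1) * p.2 = 0} := by
      refine isClosed_eq ?_ continuous_const
      have h3 : Continuous fun p : X × Matrix n n ℂ => tm (T p.1) := hT.comp continuous_fst
      exact ((continuous_const.sub continuous_snd).matrix_mul h3).matrix_mul continuous_snd
    have h4 : K = (D ×ˢ {Q : Matrix n n ℂ | Qᴴ = Q ∧ Q * Q = Q}) ∩
        {p : X × Matrix n n ℂ | (1 - p.2) * tm (T p.1) * p.2 = 0} := by
      ext p
      constructor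
      · rintro ⟨h5, h6, h7⟩; exact ⟨⟨h5, h6⟩, h7⟩
      · rintro ⟨⟨h5, h6⟩, h7⟩; exact ⟨h5, h6, h7⟩
    rw [h4]
    exact h1.inter_right h2
  have hne : K.Nonempty := by
    obtain ⟨y, hy, -⟩ := hcov x₁
    exact ⟨(y, 0), hy, by simp, by simp⟩
  have hcont : Continuous fun p : X × Matrix n n ℂ => (Matrix.trace (tm (T p.1) * p.2)).im := by
    have h3 : Continuous fun p : X × Matrix n n ℂ => tm (T p.1) := hT.comp continuous_fst
    exact Complex.continuous_im.comp (h3.matrix_mul continuous_snd).matrix_trace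
  obtain ⟨p₀, hp₀, hmax⟩ := hK.exists_isMaxOn hne hcont.continuousOn
  -- every value is bounded by the maximum
  have hle : ∀ (x : X) (U : End ℂ V), U * U = U → (1 - U) * T x * U = 0 →
      (LinearMap.trace ℂ V (T x * U)).im ≤ (Matrix.trace (tm (T p₀.1) * p₀.2)).im := by
    intro x U hU hinv
    obtain ⟨y, hy, φ, hφ⟩ := hcov x
    let ψ : End ℂ V ≃ₐ[ℂ] End ℂ V := φ.conjAlgEquiv ℂ
    have hψ : ∀ A : End ℂ V, ψ A = φ.conj A := fun A => rfl
    have hψT : ψ (T x) = T y := by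
      rw [hψ]
      ext v
      rw [LinearEquiv.conj_apply_apply, ← hφ, LinearEquiv.apply_symm_apply]
    have hψtr : ∀ A, LinearMap.trace ℂ V (ψ A) = LinearMap.trace ℂ V A := by
      intro A
      rw [hψ]
      exact LinearMap.trace_conj' A φ
    have h1 : ψ U * ψ U = ψ U := by rw [← map_mul, hU]
    have h2 : (1 - ψ U) * T y * ψ U = 0 := by
      have := congrArg ψ hinv
      rw [map_mul, map_mul, map_sub, map_one, map_zero, hψT] at this
      exact this
    have h3 : tm (ψ U) * tm (ψ U) = tm (ψ U) := by rw [← map_mul, h1]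
    have h4 : (1 - tm (ψ U)) * tm (T y) * tm (ψ U) = 0 := by
      have := congrArg tm h2
      rw [map_mul, map_mul, map_sub, map_one, map_zero] at this
      exact this
    obtain ⟨Q, hQ1, hQ2, hQ3, hQ4⟩ := exists_hermitian h3 h4
    have h5 := hmax (show ((y, Q) : X × Matrix n n ℂ) ∈ K from ⟨hy, ⟨hQ1, hQ2⟩, hQ3⟩)
    simp only [Set.mem_ofPred_eq] at h5
    rw [hQ4] at h5
    have h6 : LinearMap.trace ℂ V (T x * U) = Matrix.trace (tm (T y) * tm (ψ U)) := by
      rw [← hψtr, map_mul, hψT, trace_toMatrix e, ← map_mul]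
    rw [h6]
    exact h5
  have hinvP : ∀ T' : End ℂ V, (1 - cal T' indP) * T' * cal T' indP = 0 := by
    intro T'
    have h1 := cal_idem T' indP_idem
    have h2 : Commute T' (cal T' indP) := commute_self_cal T' indP
    rw [mul_assoc, h2.eq, ← mul_assoc, sub_mul, one_mul, h1, sub_self, zero_mul]
  have hge : (Matrix.trace (tm (T p₀.1) * p₀.2)).im ≤
      (LinearMap.trace ℂ V (T p₀.1 * cal (T p₀.1) indP)).im := by
    set U : End ℂ V := tm.symm p₀.2 with hUdef
    have hUt : tm U = p₀.2 := tm.apply_symm_apply _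
    have h1 : U * U = U := by
      apply tm.injective
      rw [map_mul, hUt]
      exact hp₀.2.1.2
    have h2 : (1 - U) * T p₀.1 * U = 0 := by
      apply tm.injective
      rw [map_mul, map_mul, map_sub, map_one, map_zero, hUt]
      exact hp₀.2.2
    have h3 := im_trace_le (T p₀.1) U h1 h2
    rw [trace_toMatrix e (T p₀.1 * U), map_mul] at h3
    rw [← hUt]
    exact h3
  refine ⟨p₀.1, ?_, fun x U h1 h2 => (hle x U h1 h2).trans hge⟩
  -- positivity
  refine lt_of_lt_of_le ?_ hge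
  obtain ⟨f, hf⟩ : ∃ f : V →ₗ[ℂ] ℂ, f y₁ = 1 := by
    have h1 : ∃ g : Module.Dual ℂ V, g y₁ ≠ 0 := by
      by_contra hcon
      push Not at hcon
      exact hy₁ ((Module.forall_dual_apply_eq_zero_iff ℂ y₁).1 hcon)
    obtain ⟨g, hg⟩ := h1
    refine ⟨(g y₁)⁻¹ • g, ?_⟩
    rw [LinearMap.smul_apply, smul_eq_mul, inv_mul_cancel₀ hg]
  have h1 := hle x₁ (f.smulRight y₁) ?_ ?_
  · refine lt_of_lt_of_le ?_ h1
    have e1 : T x₁ * (f.smulRight y₁) = f.smulRight (l • y₁) := by
      ext v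
      rw [Module.End.mul_apply, LinearMap.smulRight_apply, map_smul, hly₁,
        LinearMap.smulRight_apply]
    rw [e1, LinearMap.trace_smulRight, map_smul, hf]
    simpa using hl
  · ext v
    simp [hf]
  · ext v
    simp [hf, hly₁]

end Pool.Agent.K4H32.W
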