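import Mathlib
import Pool.Agent.H826R2.Wein.Stmt

/-! Definitions for the statement about local symmetries by semisimple groups. -/

open scoped Topology ContDiff Manifold
open Module LieAlgebra Pool.Agent.H826R2.WStmt

noncomputable section

namespace Pool.Agent.K4H32.WS

variable {E : Type*} [NormedAddCommGroup E] [NormedSpace ℝ E]
  {P : Type*} [TopologicalSpace P] [ChartedSpace E P]
  {𝔤 : Type*} [LieRing 𝔤] [LieAlgebra ℝ 𝔤] {n : ℕ}

/-- A family `act κ`, `κ ∈ 𝔤`, of maps of `P` preserving the one-form `β`, with the formal properties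
of the maps `x ↦ exp(κ) x` for a smooth action on `P` of a connected Lie group `G` with Lie algebra
`𝔤` and finite centre: `act κ x` depends smoothly on `(κ, x)` (`κ` being given by its coordinates
with respect to a basis `b` of `𝔤`), `t ↦ act (t κ)` is a one-parameter group, and there is `k ≥ 1`
such that `act (k κ)` is the identity whenever `e^{ad κ} = 1`. (If `e^{ad κ} = 1` then `exp κ` is in
the centre of `G`, so one may take for `k` the order of the centre.) -/
structure GroupSymmetry (β : P → Cov E) (b : Basis (Fin n) ℝ 𝔤) where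
  act : 𝔤 → P → P
  smooth : ContMDiff (𝓘(ℝ, Fin n → ℝ).prod 𝓘(ℝ, E)) 𝓘(ℝ, E) ∞
    (fun p : (Fin n → ℝ) × P => act (b.equivFun.symm p.1) p.2)
  zero : ∀ x, act 0 x = x
  add : ∀ (s t : ℝ) (κ : 𝔤) (x : P), act ((s + t) • κ) x = act (s • κ) (act (t • κ) x)
  strict : ∀ κ, pull (act κ) β = β
  centre : ∃ k : ℕ, 0 < k ∧ ∀ κ : 𝔤,
    NormedSpace.exp (LinearMap.toMatrix b b (ad ℝ 𝔤 κ)) = 1 → ∀ x, act ((k : ℝ) • κ) x = x

variable {β : P → Cov E} {b : Basis (Fin n) ℝ 𝔤}

/-- the contact Hamiltonian of `κ` at `x`: the value of `β` on the velocity of `act (t κ) x` at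
`t = 0` -/
def GroupSymmetry.ham (A : GroupSymmetry β b) (κ : 𝔤) (x : P) : ℝ :=
  ev (β x) (D (E := ℝ) (E' := E) (fun t : ℝ => A.act (t • κ) x) 0 1)

/-- `a` is the momentum of `x`: the contact Hamiltonians at `x` are given by the Killing form -/
def GroupSymmetry.IsMomentum (A : GroupSymmetry β b) (x : P) (a : 𝔤) : Prop :=
  ∀ κ : 𝔤, A.ham κ x = killingForm ℝ 𝔤 a κ

/-- the group `Γ` normalises the action: `γ (exp(κ) x) = exp(h κ) (γ x)` with an automorphism `h` of
the Lie algebra depending on `γ` -/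
def GroupSymmetry.Normalised (A : GroupSymmetry β b) (Γ : Type*) [Group Γ] [MulAction Γ P] : Prop :=
  ∀ γ : Γ, ∃ h : 𝔤 ≃ₗ⁅ℝ⁆ 𝔤, ∀ (κ : 𝔤) (x : P), γ • A.act κ x = A.act (h κ) (γ • x)

/-- some eigenvalue of `ad a` is not real -/
def HasNonrealEigenvalue [Module.Finite ℝ 𝔤] (a : 𝔤) : Prop :=
  ∃ l : ℂ, l.im ≠ 0 ∧ (((ad ℝ 𝔤 a).charpoly).map (algebraMap ℝ ℂ)).IsRoot l

end Pool.Agent.K4H32.WS
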