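import Mathlib
import Pool.Agent.H826R2.Wein.Bridge
import Pool.Agent.K4H32.W.Expo
import Pool.Agent.K4H32.W.Max
import Pool.Agent.K4H32.W.LAct
import Pool.Agent.K4H32.W.Stmt

/-! Local symmetries by semisimple groups and closed Reeb orbits. -/

open scoped Topology ContDiff Manifold TensorProduct
open Module Module.End LieAlgebra Filter Pool.Agent.Helper186 Pool.Agent.H826R2.WStmt
  Pool.Agent.K4H32.WS

noncomputable section

set_option linter.unusedSectionVars false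

namespace Pool.Agent.K4H32.W

section local_max

variable {E : Type*} [NormedAddCommGroup E] [NormedSpace ℝ E]
  {P : Type*} [TopologicalSpace P] [ChartedSpace E P]

lemma mfderiv_eq_zero_of_isLocalMax {f : P → ℝ} {x : P} (hf : MDifferentiableAt 𝓘(ℝ, E) 𝓘(ℝ, ℝ) f x)
    (h : IsLocalMax f x) : mfderiv 𝓘(ℝ, E) 𝓘(ℝ, ℝ) f x = 0 := by
  have h1 := hf.hasMFDerivAt.2
  rw [ModelWithCorners.range_eq_univ, hasFDerivWithinAt_univ] at h1
  have key : IsLocalMax (writtenInExtChartAt 𝓘(ℝ, E) 𝓘(ℝ, ℝ) x f) (extChartAt 𝓘(ℝ, E) x x) := ?_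
  · exact key.hasFDerivAt_eq_zero h1
  have h2 : Tendsto (extChartAt 𝓘(ℝ, E) x).symm (𝓝 (extChartAt 𝓘(ℝ, E) x x)) (𝓝 x) := by
    have h3 := (continuousAt_extChartAt_symm (I := 𝓘(ℝ, E)) x).tendsto
    rwa [extChartAt_to_inv] at h3
  have h4 := h2.eventually h
  have h5 : (extChartAt 𝓘(ℝ, E) x).symm (extChartAt 𝓘(ℝ, E) x x) = x := extChartAt_to_inv x
  filter_upwards [h4] with y hy
  show f ((extChartAt 𝓘(ℝ, E) x).symm y) ≤
    f ((extChartAt 𝓘(ℝ, E) x).symm (extChartAt 𝓘(ℝ, E) x x))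
  rw [h5]
  exact hy

end local_max

section bound

variable {V : Type*} [AddCommGroup V] [Module ℂ V] [FiniteDimensional ℂ V]
  {ι : Type*} [Fintype ι]

/-- the maximum property gives a quadratic upper bound for the linearised function -/
lemma quadratic_bound_aux {𝔸 : Type*} [NormedRing 𝔸] [NormedAlgebra ℂ 𝔸] [FiniteDimensional ℂ 𝔸]
    (Θ : End ℂ V ≃ₐ[ℂ] 𝔸) {X : Type*} [TopologicalSpace X] (h : ι → X → ℝ)
    (hcont : ∀ i, Continuous (h i)) (N : ι → End ℂ V) (T : X → End ℂ V)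
    (hT : ∀ x, T x = ∑ i, (h i x : ℂ) • N i) {x₀ : X} {G : ℝ}
    (hG : ∀ (x : X) (U : End ℂ V), U * U = U → (1 - U) * T x * U = 0 →
      (LinearMap.trace ℂ V (T x * U)).im ≤ G) :
    ∃ C : ℝ, ∀ᶠ x in 𝓝 x₀, (LinearMap.trace ℂ V (T x * cal (T x₀) indP)).im ≤
      G + C * ∑ i, (h i x - h i x₀) ^ 2 := by
  set L : X → 𝔸 := fun x => Θ (T x) with hL
  have hLe : ∀ x, L x = ∑ i, (h i x : ℂ) • Θ (N i) := by
    intro x
    simp only [hL]
    rw [hT, map_sum]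
    exact Finset.sum_congr rfl fun i _ => map_smul Θ _ _
  have hLc : Continuous L := by
    have : L = fun x => ∑ i, (h i x : ℂ) • Θ (N i) := funext hLe
    rw [this]
    apply continuous_finsetSum
    intro i _
    exact (Complex.continuous_ofReal.comp (hcont i)).smul continuous_const
  let τ : 𝔸 →L[ℂ] ℂ := LinearMap.toContinuousLinearMap
    ((LinearMap.trace ℂ V) ∘ₗ Θ.symm.toLinearMap)
  have hτ : ∀ A, τ A = LinearMap.trace ℂ V (Θ.symm A) := fun A => rfl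
  have hP : Θ (cal (T x₀) indP) * Θ (cal (T x₀) indP) = Θ (cal (T x₀) indP) := by
    rw [← map_mul, cal_idem (T x₀) indP_idem]
  have hcom : ∀ Y : 𝔸, L x₀ * Y = Y * L x₀ →
      Θ (cal (T x₀) indP) * Y = Y * Θ (cal (T x₀) indP) := by
    intro Y hY
    have h1 : Commute (Θ.symm Y) (T x₀) := by
      apply Θ.injective
      rw [map_mul, map_mul, Θ.apply_symm_apply]
      exact hY.symm
    have h2 := cal_commute h1 indP
    have h3 := congrArg Θ h2.eq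
    rw [map_mul, map_mul, Θ.apply_symm_apply] at h3
    exact h3.symm
  obtain ⟨C, hC⟩ := perturb τ (fun x y => by
    rw [hτ, hτ, map_mul Θ.symm, map_mul Θ.symm, LinearMap.trace_mul_comm]) hP hcom
  have hC2 := (hLc.tendsto x₀).eventually hC
  refine ⟨|C| * ((∑ i, ‖Θ (N i)‖ ^ 2)), ?_⟩
  filter_upwards [hC2] with x hx
  obtain ⟨U, hU1, hU2, hU3⟩ := hx
  have h1 : (LinearMap.trace ℂ V (T x * Θ.symm U)).im ≤ G := by
    apply hG x (Θ.symm U)
    · rw [← map_mul, hU1]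
    · have := congrArg Θ.symm hU2
      rw [map_mul, map_mul, map_sub, map_one, map_zero] at this
      simpa [hL] using this
  have e0 : ∀ W : 𝔸, τ (L x * W) = LinearMap.trace ℂ V (T x * Θ.symm W) := by
    intro W
    rw [hτ, map_mul Θ.symm]
    simp [hL]
  have h2 : (LinearMap.trace ℂ V (T x * cal (T x₀) indP)).im ≤
      (LinearMap.trace ℂ V (T x * Θ.symm U)).im + C * ‖L x - L x₀‖ ^ 2 := by
    rw [e0, e0, Θ.symm_apply_apply] at hU3
    have h3 := (Complex.abs_im_le_norm _).trans hU3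
    rw [Complex.sub_im] at h3
    have h4 := abs_le.1 h3
    linarith [h4.1]
  have h3 : ‖L x - L x₀‖ ^ 2 ≤ (∑ i, ‖Θ (N i)‖ ^ 2) * ∑ i, (h i x - h i x₀) ^ 2 := by
    have e1 : L x - L x₀ = ∑ i, ((h i x - h i x₀ : ℝ) : ℂ) • Θ (N i) := by
      rw [hLe, hLe, ← Finset.sum_sub_distrib]
      refine Finset.sum_congr rfl fun i _ => ?_
      rw [← sub_smul]
      push_cast
      rfl
    have e2 : ‖L x - L x₀‖ ≤ ∑ i, ‖Θ (N i)‖ * |h i x - h i x₀| := by
      rw [e1]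
      refine (norm_sum_le _ _).trans (Finset.sum_le_sum fun i _ => ?_)
      rw [norm_smul, Complex.norm_real, Real.norm_eq_abs, mul_comm]
    calc ‖L x - L x₀‖ ^ 2 ≤ (∑ i, ‖Θ (N i)‖ * |h i x - h i x₀|) ^ 2 := by gcongr
      _ ≤ (∑ i, ‖Θ (N i)‖ ^ 2) * ∑ i, |h i x - h i x₀| ^ 2 :=
          Finset.sum_mul_sq_le_sq_mul_sq _ _ _
      _ = _ := by simp only [sq_abs]
  have h4 : C * ‖L x - L x₀‖ ^ 2 ≤
      |C| * ((∑ i, ‖Θ (N i)‖ ^ 2) * ∑ i, (h i x - h i x₀) ^ 2) := by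
    calc C * ‖L x - L x₀‖ ^ 2 ≤ |C| * ‖L x - L x₀‖ ^ 2 := by
          gcongr; exact le_abs_self C
      _ ≤ _ := by gcongr
  calc (LinearMap.trace ℂ V (T x * cal (T x₀) indP)).im
      ≤ (LinearMap.trace ℂ V (T x * Θ.symm U)).im + C * ‖L x - L x₀‖ ^ 2 := h2
    _ ≤ G + |C| * ((∑ i, ‖Θ (N i)‖ ^ 2) * ∑ i, (h i x - h i x₀) ^ 2) := add_le_add h1 h4
    _ = _ := by rw [mul_assoc]

lemma quadratic_bound {X : Type*} [TopologicalSpace X] (h : ι → X → ℝ)
    (hcont : ∀ i, Continuous (h i)) (N : ι → End ℂ V) (T : X → End ℂ V)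
    (hT : ∀ x, T x = ∑ i, (h i x : ℂ) • N i) {x₀ : X} {G : ℝ}
    (hG : ∀ (x : X) (U : End ℂ V), U * U = U → (1 - U) * T x * U = 0 →
      (LinearMap.trace ℂ V (T x * U)).im ≤ G) :
    ∃ C : ℝ, ∀ᶠ x in 𝓝 x₀, (LinearMap.trace ℂ V (T x * cal (T x₀) indP)).im ≤
      G + C * ∑ i, (h i x - h i x₀) ^ 2 := by
  let ph : V ≃ₗ[ℂ] EuclideanSpace ℂ (Fin (finrank ℂ V)) :=
    (Module.finBasis ℂ V).equivFun.trans
      (WithLp.linearEquiv 2 ℂ (Fin (finrank ℂ V) → ℂ)).symm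
  exact quadratic_bound_aux ((ph.conjAlgEquiv ℂ).trans (Module.End.toContinuousLinearMap _))
    h hcont N T hT hG

end bound

end Pool.Agent.K4H32.W
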