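import Mathlib
import Pool.Agent.K4H32.W.Geo

/-! Local symmetries by semisimple groups and closed Reeb orbits: the main theorem. -/

open scoped Topology ContDiff Manifold TensorProduct ComplexConjugate
open Module Module.End LieAlgebra Filter Pool.Agent.Helper186 Pool.Agent.H826R2.WStmt
  Pool.Agent.K4H32.WS

noncomputable section

set_option linter.unusedSectionVars false

namespace Pool.Agent.K4H32.W

universe u

variable {E : Type u} [NormedAddCommGroup E] [NormedSpace ℝ E] [FiniteDimensional ℝ E]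
  {M : Type*} [TopologicalSpace M] [ChartedSpace E M] [IsManifold 𝓘(ℝ, E) ∞ M]
  {P : Type*} [TopologicalSpace P] [ChartedSpace E P] [IsManifold 𝓘(ℝ, E) ∞ P]
  {𝔤 : Type*} [LieRing 𝔤] [LieAlgebra ℝ 𝔤] [FiniteDimensional ℝ 𝔤] [LieAlgebra.IsKilling ℝ 𝔤]
  {n : ℕ} {b : Basis (Fin n) ℝ 𝔤} {β : P → Cov E}

/-- the working form of a group symmetry -/
def toLAct (A : GroupSymmetry β b) : LAct (Fin n → ℝ) (toForm β) where
  act := fun θ x => A.act (b.equivFun.symm θ) x
  smooth := A.smooth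
  zero := fun x => by rw [map_zero]; exact A.zero x
  add := fun s t κ x => by rw [map_smul, map_smul, map_smul]; exact A.add s t _ x
  strict := fun θ x u => by
    have h := congrFun (A.strict (b.equivFun.symm θ)) x
    have h2 := congrArg (fun a : Cov E => ev a (u : E)) h
    exact h2

lemma ham_eq (A : GroupSymmetry β b) (κ : 𝔤) (x : P) :
    A.ham κ x = (toLAct A).H (b.equivFun κ) x := by
  have h := ((toLAct A).hasMFDerivAt_fam_zero (b.equivFun κ) x).mfderiv
  have e : (fun t : ℝ => (toLAct A).fam (b.equivFun κ) (t, x)) = fun t : ℝ => A.act (t • κ) x := by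
    ext1 t
    show A.act (b.equivFun.symm (t • b.equivFun κ)) x = _
    rw [map_smul, LinearEquiv.symm_apply_apply]
  rw [e] at h
  have h1 : (D (E := ℝ) (E' := E) (fun t : ℝ => A.act (t • κ) x) 0 1 : E) =
      (1:ℝ) • ((toLAct A).X (b.equivFun κ) x : E) := DFunLike.congr_fun h (1:ℝ)
  rw [one_smul] at h1
  unfold GroupSymmetry.ham
  rw [h1]
  rfl

lemma exists_upper {A : 𝔤 →ₗ[ℝ] 𝔤} {l : ℂ} (hl : l.im ≠ 0)
    (h : (A.charpoly.map (algebraMap ℝ ℂ)).IsRoot l) :
    ∃ (l' : ℂ) (y : LC 𝔤), y ≠ 0 ∧ (A.baseChange ℂ) y = l' • y ∧ 0 < l'.im := by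
  rw [← LinearMap.charpoly_baseChange] at h
  have h1 : Module.End.HasEigenvalue (A.baseChange ℂ : End ℂ (LC 𝔤)) l :=
    (Module.End.hasEigenvalue_iff_isRoot_charpoly _ l).2 h
  obtain ⟨y, hy⟩ := h1.exists_hasEigenvector
  have hy0 : y ≠ 0 := hy.2
  have hy1 : (A.baseChange ℂ) y = l • y := hy.apply_eq_smul
  rcases lt_or_gt_of_ne hl with hneg | hpos
  · refine ⟨conj l, sig y, ?_, ?_, ?_⟩
    · intro h0
      apply hy0
      rw [← sig_sig y, h0, map_zero]
    · rw [← sig_baseChange, hy1, sig_smul]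
    · rw [Complex.conj_im]; linarith
  · exact ⟨l, y, hy0, hy1, hpos⟩

/-- **Main theorem.** -/
theorem exists_periodic_semisimple [CompactSpace M]
    (α : M → Cov E) (hα : IsContact α) (R : M → E) (hR : IsReeb α R)
    {Γ : Type*} [Group Γ] [MulAction Γ P] (q : P → M) (hq : IsQuotientMap E q Γ)
    (A : GroupSymmetry (pull (E := E) q α) b) (hA : A.Normalised Γ)
    {x₁ : P} {a₁ : 𝔤} (ha₁ : A.IsMomentum x₁ a₁) (hnr : HasNonrealEigenvalue a₁) :
    ∃ (c : ℝ → M) (T : ℝ), IsPeriodicOrbit R c T := by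
  have hq' : H826R2.Wein.RegCover (E := E) q Γ := hq.toWein
  let B : LAct (Fin n → ℝ) (pullForm 𝓘(ℝ, E) 𝓘(ℝ, E) q (toForm α)) := toLAct A
  have hcP := hq'.isContact_pull hα.toWein
  have hRP := hq'.isReeb_lift hα.toWein hR.toWein
  have hham : ∀ (κ : 𝔤) (x : P), A.ham κ x = B.H (b.equivFun κ) x := ham_eq A
  have hnd := LieAlgebra.IsKilling.killingForm_nondegenerate ℝ 𝔤
  let Ψ : (𝔤 →ₗ[ℝ] ℝ) ≃ₗ[ℝ] 𝔤 := (LinearMap.BilinForm.toDual (killingForm ℝ 𝔤) hnd).symm
  have hΨ : ∀ (f : 𝔤 →ₗ[ℝ] ℝ) (κ : 𝔤), killingForm ℝ 𝔤 (Ψ f) κ = f κ := fun f κ =>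
    LinearMap.BilinForm.apply_toDual_symm_apply (hB := hnd) f κ
  have hinj : ∀ y z : 𝔤, (∀ κ, killingForm ℝ 𝔤 y κ = killingForm ℝ 𝔤 z κ) → y = z := by
    intro y z h
    have h1 : LinearMap.BilinForm.toDual (killingForm ℝ 𝔤) hnd y =
        LinearMap.BilinForm.toDual (killingForm ℝ 𝔤) hnd z := by
      ext κ
      exact h κ
    exact (LinearMap.BilinForm.toDual (killingForm ℝ 𝔤) hnd).injective h1
  -- the momentum
  let f : P → (𝔤 →ₗ[ℝ] ℝ) := fun x =>
    { toFun := fun κ => B.H (b.equivFun κ) x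
      map_add' := fun κ κ' => by rw [map_add, B.H_add]
      map_smul' := fun c κ => by rw [map_smul, B.H_smul]; rfl }
  let a : P → 𝔤 := fun x => Ψ (f x)
  have ha : ∀ x κ, killingForm ℝ 𝔤 (a x) κ = B.H (b.equivFun κ) x := fun x κ => hΨ (f x) κ
  have haa : a x₁ = a₁ := by
    apply hinj
    intro κ
    rw [ha, ← hham]
    exact ha₁ κ
  let T : P → End ℂ (LC 𝔤) := fun x => (ad ℝ 𝔤 (a x)).baseChange ℂ
  let h : Fin n → P → ℝ := fun i x => B.H (b.equivFun (b i)) x
  let N : Fin n → End ℂ (LC 𝔤) := fun i => (ad ℝ 𝔤 (Ψ (b.coord i))).baseChange ℂ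
  have hsm : ∀ i, ContMDiff 𝓘(ℝ, E) 𝓘(ℝ, ℝ) ∞ (h i) := fun i => B.smooth_H hcP.smooth _
  have hT : ∀ x, T x = ∑ i, (h i x : ℂ) • N i := by
    intro x
    have e1 : f x = ∑ i, (h i x) • b.coord i := by
      refine b.ext fun j => ?_
      rw [LinearMap.sum_apply, Finset.sum_eq_single j]
      · simp [f, h]
      · intro i _ hij
        simp [hij.symm]
      · simp
    have e2 : a x = ∑ i, (h i x) • Ψ (b.coord i) := by
      simp only [a]
      rw [e1, map_sum]
      exact Finset.sum_congr rfl fun i _ => map_smul Ψ _ _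
    have e3 : ∀ (s : Finset (Fin n)), ((ad ℝ 𝔤 (∑ i ∈ s, (h i x) • Ψ (b.coord i))).baseChange ℂ :
        LC 𝔤 →ₗ[ℂ] LC 𝔤) = ∑ i ∈ s, (h i x : ℂ) • N i := by
      intro s
      induction s using Finset.induction_on with
      | empty => simp
      | insert i s hi ih =>
        rw [Finset.sum_insert hi, Finset.sum_insert hi, map_add, LinearMap.baseChange_add, ih,
          map_smul, LinearMap.baseChange_smul]
        rfl
    show (ad ℝ 𝔤 (a x)).baseChange ℂ = _
    rw [e2]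
    exact e3 Finset.univ
  have hTc : Continuous fun x => LinearMap.toMatrixAlgEquiv (bC b) (T x) := by
    have e1 : (fun x => LinearMap.toMatrixAlgEquiv (bC b) (T x)) =
        fun x => ∑ i, (h i x : ℂ) • LinearMap.toMatrixAlgEquiv (bC b) (N i) := by
      ext1 x
      rw [hT, map_sum]
      exact Finset.sum_congr rfl fun i _ => map_smul _ _ _
    rw [e1]
    apply continuous_finsetSum
    intro i _
    exact (Complex.continuous_ofReal.comp (hsm i).continuous).smul continuous_const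
  obtain ⟨K, hK, hcovK⟩ := hq'.exists_domain
  have hcov : ∀ x, ∃ y ∈ K, ∃ φ : LC 𝔤 ≃ₗ[ℂ] LC 𝔤, ∀ v, T y (φ v) = φ (T x v) := by
    intro x
    obtain ⟨γ, hγ⟩ := hcovK x
    obtain ⟨g, hg⟩ := hA γ
    refine ⟨γ • x, hγ, LinearEquiv.baseChange ℝ ℂ 𝔤 𝔤 g.toLinearEquiv, ?_⟩
    have hax : a (γ • x) = g (a x) := by
      apply hinj
      intro κ
      obtain ⟨κ', hκ'⟩ : ∃ κ', g κ' = κ := ⟨g.symm κ, g.apply_symm_apply κ⟩
      subst hκ'
      have e1 : killingForm ℝ 𝔤 (g (a x)) (g κ') = killingForm ℝ 𝔤 (a x) κ' :=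
        LieAlgebra.killingForm_of_equiv_apply g (a x) κ'
      rw [e1, ha, ha]
      refine B.H_push (hq.smooth γ) (κ := b.equivFun κ') (κ' := b.equivFun (g κ')) ?_
        (hq'.strict _ γ) x
      intro t y
      show γ • A.act (b.equivFun.symm (t • b.equivFun κ')) y =
        A.act (b.equivFun.symm (t • b.equivFun (g κ'))) (γ • y)
      have e2 : b.equivFun.symm (t • b.equivFun κ') = t • κ' := by
        rw [map_smul, LinearEquiv.symm_apply_apply]
      have e3 : b.equivFun.symm (t • b.equivFun (g κ')) = t • g κ' := by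
        rw [map_smul, LinearEquiv.symm_apply_apply]
      rw [hg, e2, e3, map_smul]
    intro v
    show (ad ℝ 𝔤 (a (γ • x))).baseChange ℂ _ = _
    rw [hax]
    induction v using TensorProduct.induction_on with
    | zero => simp
    | tmul z w =>
      simp only [LinearEquiv.baseChange_tmul, LinearMap.baseChange_tmul, T]
      congr 1
      exact (LieEquiv.map_lie g (a x) w).symm
    | add v w hv hw => rw [map_add, map_add, hv, hw, map_add, map_add]
  obtain ⟨l, hl, hroot⟩ := hnr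
  obtain ⟨l', y₁, hy₁, hly₁, hl'⟩ := exists_upper hl hroot
  rw [← haa] at hly₁
  obtain ⟨x₀, hpos, hmax⟩ := exists_max (bC b) T hTc hK hcov hy₁ hly₁ hl'
  obtain ⟨k, hk⟩ := exists_real_grad (a x₀)
  obtain ⟨τ, hτ, hexp⟩ := exists_period b hk
  obtain ⟨m, hm, hcent⟩ := A.centre
  -- the contact Hamiltonian of the gradient
  have hHk : ∀ x, B.H (b.equivFun k) x =
      (LinearMap.trace ℂ (LC 𝔤) (T x * cal (T x₀) indP)).im := by
    intro x
    rw [← ha, LinearMap.trace_mul_comm]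
    have e1 : killingForm ℝ 𝔤 (a x) k = killingForm ℝ 𝔤 k (a x) :=
      LieModule.traceForm_comm ℝ 𝔤 𝔤 (a x) k
    rw [e1]
    exact hk (a x)
  obtain ⟨C, hC⟩ := quadratic_bound h (fun i => (hsm i).continuous) N T hT (x₀ := x₀) hmax
  have hcrit : dForm 𝓘(ℝ, E) (B.H (b.equivFun k)) x₀ = 0 := by
    set F : P → ℝ := fun x => B.H (b.equivFun k) x - C * ∑ i, (h i x - h i x₀) ^ 2 with hF
    have hFmax : IsLocalMax F x₀ := by
      filter_upwards [hC] with x hx
      rw [hF]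
      simp only [sub_self, ne_eq, OfNat.ofNat_ne_zero, not_false_eq_true, zero_pow,
        Finset.sum_const_zero, mul_zero, sub_zero]
      rw [hHk, hHk]
      linarith
    have h1 : HasMFDerivAt 𝓘(ℝ, E) 𝓘(ℝ, ℝ) (B.H (b.equivFun k)) x₀
        (mfderiv 𝓘(ℝ, E) 𝓘(ℝ, ℝ) (B.H (b.equivFun k)) x₀) :=
      ((B.smooth_H hcP.smooth _).mdifferentiableAt (by simp)).hasMFDerivAt
    have h2 : HasMFDerivAt 𝓘(ℝ, E) 𝓘(ℝ, ℝ) (fun x => C * ∑ i, (h i x - h i x₀) ^ 2) x₀
        (0 : TangentSpace 𝓘(ℝ, E) x₀ →L[ℝ] TangentSpace 𝓘(ℝ, ℝ)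
          (C * ∑ i, (h i x₀ - h i x₀) ^ 2)) := by
      have h3 : HasMFDerivAt 𝓘(ℝ, E) 𝓘(ℝ, Fin n → ℝ) (fun x => fun i => h i x) x₀
          (mfderiv 𝓘(ℝ, E) 𝓘(ℝ, Fin n → ℝ) (fun x => fun i => h i x) x₀) := by
        have h4 : ContMDiff 𝓘(ℝ, E) 𝓘(ℝ, Fin n → ℝ) ∞ (fun x => fun i => h i x) :=
          contMDiff_pi_space.2 hsm
        exact (h4.mdifferentiableAt (by simp)).hasMFDerivAt
      have h5 : HasFDerivAt (fun z : Fin n → ℝ => C * ∑ i, (z i - h i x₀) ^ 2)
          (0 : (Fin n → ℝ) →L[ℝ] ℝ) (fun i => h i x₀) := by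
        have h6 : ∀ i : Fin n, HasFDerivAt (fun z : Fin n → ℝ => (z i - h i x₀) ^ 2)
            (0 : (Fin n → ℝ) →L[ℝ] ℝ) (fun i => h i x₀) := by
          intro i
          have h7 : HasFDerivAt (fun z : Fin n → ℝ => z i - h i x₀)
              (ContinuousLinearMap.proj (R := ℝ) (φ := fun _ : Fin n => ℝ) i)
              (fun i => h i x₀) :=
            (ContinuousLinearMap.proj (R := ℝ) (φ := fun _ : Fin n => ℝ) i).hasFDerivAt.sub_const _
          have h8 := h7.pow 2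
          refine h8.congr_fderiv ?_
          simp
        have h9 := HasFDerivAt.fun_sum (u := Finset.univ) (fun i _ => h6 i)
        have h10 := h9.const_mul C
        refine h10.congr_fderiv ?_
        simp
      have h11 := HasMFDerivAt.comp x₀ (g := fun z : Fin n → ℝ => C * ∑ i, (z i - h i x₀) ^ 2)
        (f := fun x => fun i => h i x) h5.hasMFDerivAt h3
      exact h11
    have h3 := h1.sub h2
    have h4 : mfderiv 𝓘(ℝ, E) 𝓘(ℝ, ℝ) F x₀ = 0 :=
      mfderiv_eq_zero_of_isLocalMax h3.mdifferentiableAt hFmax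
    have h5 := h3.mfderiv
    have h6 : mfderiv 𝓘(ℝ, E) 𝓘(ℝ, ℝ) (B.H (b.equivFun k)) x₀ = 0 := by
      refine ContinuousLinearMap.ext fun u => ?_
      have h7 := DFunLike.congr_fun (h5.symm.trans h4) u
      have h8 : (show ℝ from mfderiv 𝓘(ℝ, E) 𝓘(ℝ, ℝ) (B.H (b.equivFun k)) x₀ u) - (0:ℝ) =
        (0:ℝ) := h7
      rw [sub_zero] at h8
      exact h8
    exact h6
  have hHpos : 0 < B.H (b.equivFun k) x₀ := by rw [hHk]; exact hpos
  have hper : ∀ y, B.act (((m : ℝ) * τ) • b.equivFun k) y = y := by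
    intro y
    show A.act (b.equivFun.symm (((m : ℝ) * τ) • b.equivFun k)) y = y
    rw [map_smul, LinearEquiv.symm_apply_apply, mul_smul]
    exact hcent _ hexp y
  obtain ⟨c, T', h1, h2, h3⟩ := hq'.closed_proj
    (B.closed_of_crit hcP hRP (mul_pos (Nat.cast_pos.2 hm) hτ) hper hcrit hHpos)
  exact ⟨c, T', h1, h2, h3⟩

end Pool.Agent.K4H32.W
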